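import Mathlib

set_option autoImplicit false

/-!
# Statements of the project MX2 (helper576), part 1: numbers only
-/

namespace Pool.Agent.N576.MX2

noncomputable section

/-- `9 u² - 4` -/
def De (u : ℤ) : ℝ := 9 * (u : ℝ) ^ 2 - 4

/-- the unit `(3 u + √(9 u² - 4)) / 2` -/
def la (u : ℤ) : ℝ := (3 * u + Real.sqrt (9 * (u : ℝ) ^ 2 - 4)) / 2

/-- `i λ + j λ⁻¹` -/
def WW (u i j : ℤ) : ℝ := i * la u + j * (la u)⁻¹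

/-- `3 B - 3 A λ⁻¹` -/
def Xi (u A B : ℤ) : ℝ := 3 * B - 3 * A * (la u)⁻¹

/-- the normalised coefficient `(3 B - 3 A λ⁻¹) / √(9 u² - 4)` -/
def X0 (u A B : ℤ) : ℝ := Xi u A B / Real.sqrt (De u)

/-- the level of the position `n` -/
def tt (u A B : ℤ) (n : ℕ) : ℝ := Real.log (X0 u A B) + n * Real.log (la u)

/-- the data of a run -/
def RunD (u A B : ℤ) : Prop := 1 ≤ A ∧ A ≤ u ∧ 1 ≤ B ∧ B ≤ u ∧ A ^ 2 + B ^ 2 + u ^ 2 = 3 * u * A * B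

/-- the norm of `WW u i j` -/
def NN (u i j : ℤ) : ℤ := 9 * u ^ 2 * i * j + (i - j) ^ 2

/-- the first order gap -/
def GG (u A B : ℤ) (n : ℕ) (i j : ℤ) : ℝ := 4 / De u * (i + j * (la u)⁻¹ ^ 2) * Real.exp (-2 * tt u A B n)

/-- the linear part -/
def LL (u A B : ℤ) (n : ℕ) (i j : ℤ) : ℝ := (i + j) * tt u A B n + j * Real.log (la u)

/-- lower bound for a linear form in two logarithms, one of them that of the unit `la u` -/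
def TWOLOG : Prop := ∃ C : ℝ, 0 < C ∧ ∀ (u P Q N a b : ℤ) (α Y B : ℝ), 1 ≤ u → 1 ≤ N → 0 < α →
  α * N = P + Q * Real.sqrt (De u) → 1 ≤ Y → 2 ≤ B → Real.log (la u) ≤ Y → |(P : ℝ)| ≤ Real.exp Y →
  |(Q : ℝ)| * Real.sqrt (De u) ≤ Real.exp Y → (N : ℝ) ≤ Real.exp Y → 1 ≤ b → (b : ℝ) ≤ B → |(a : ℝ)| ≤ B →
  b * Real.log α ≠ a * Real.log (la u) →
  Real.exp (-(C * Y ^ 2 * (1 + Real.log (Y * B)) ^ 2)) ≤ |b * Real.log α - a * Real.log (la u)|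

/-- exactness for two positions -/
def PAIR : Prop := ∀ (u u' i1 j1 i2 j2 i1' j1' i2' j2' : ℤ) (a b : ℕ) (Z : ℝ), 1 ≤ u → 1 ≤ u' → 1 ≤ a → 1 ≤ b →
  1 ≤ i1 → 1 ≤ j1 → 1 ≤ i2 → 1 ≤ j2 → 1 ≤ i1' → 1 ≤ j1' → 1 ≤ i2' → 1 ≤ j2' → 10 ≤ Z →
  (i1 : ℝ) ≤ Z → (j1 : ℝ) ≤ Z → (i2 : ℝ) ≤ Z → (j2 : ℝ) ≤ Z → (i1' : ℝ) ≤ Z → (j1' : ℝ) ≤ Z → (i2' : ℝ) ≤ Z →
  (j2' : ℝ) ≤ Z → la u ≤ Z → la u' ≤ Z → la u ^ (2 * a) ≤ Z → la u' ^ (2 * b) ≤ Z →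
  |WW u i1 j1 * WW u' i2' j2' * la u ^ (2 * a) - WW u i2 j2 * WW u' i1' j1' * la u' ^ (2 * b)| < Z⁻¹ ^ 24 →
  WW u i1 j1 * WW u' i2' j2' * la u ^ (2 * a) = WW u i2 j2 * WW u' i1' j1' * la u' ^ (2 * b) ∧
    ∃ n : ℕ, (n : ℤ) ^ 2 = (9 * u ^ 2 - 4) * (9 * u' ^ 2 - 4)

/-- units of one field are separated -/
def UNITSEP : Prop := ∀ (u u' : ℤ) (a b n : ℕ), 1 ≤ u → 1 ≤ u' → (n : ℤ) ^ 2 = (9 * u ^ 2 - 4) * (9 * u' ^ 2 - 4) →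
  a * Real.log (la u) = b * Real.log (la u') ∨ 1 / 2 ≤ |a * Real.log (la u) - b * Real.log (la u')|

/-- exactness for one position -/
def SINGLE : Prop := ∀ (u A B u' A' B' i j i' j' : ℤ) (k k' n : ℕ) (Z : ℝ), RunD u A B → RunD u' A' B' →
  (n : ℤ) ^ 2 = (9 * u ^ 2 - 4) * (9 * u' ^ 2 - 4) → 1 ≤ i → 1 ≤ j → 1 ≤ i' → 1 ≤ j' → 10 ≤ Z →
  (i : ℝ) ≤ Z → (j : ℝ) ≤ Z → (i' : ℝ) ≤ Z → (j' : ℝ) ≤ Z → la u ≤ Z → la u' ≤ Z →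
  la u ^ (2 * k + 1) ≤ Z * la u' ^ (2 * k' + 1) → la u' ^ (2 * k' + 1) ≤ Z * la u ^ (2 * k + 1) →
  |WW u i j * Xi u' A' B' ^ 2 * la u' ^ (2 * k' + 1) - WW u' i' j' * Xi u A B ^ 2 * la u ^ (2 * k + 1)| <
    Z⁻¹ ^ 12 * la u' ^ (2 * k' + 1) →
  WW u i j * Xi u' A' B' ^ 2 * la u' ^ (2 * k' + 1) = WW u' i' j' * Xi u A B ^ 2 * la u ^ (2 * k + 1) ∧
    NN u i j * u' ^ 4 = NN u' i' j' * u ^ 4

/-- large regions -/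
def LARGE : Prop := ∀ (u u' i j i' j' H : ℤ) (n : ℕ), 1 ≤ u → 1 ≤ u' → 1 ≤ i → 1 ≤ j → 1 ≤ i' → 1 ≤ j' → 2 ≤ H →
  i + j ≤ H → i' + j' ≤ H → (n : ℤ) ^ 2 = (9 * u ^ 2 - 4) * (9 * u' ^ 2 - 4) →
  NN u i j * u' ^ 4 = NN u' i' j' * u ^ 4 →
  (H ^ 20 ≤ u → u = u') ∧ (u' ^ 2 ≤ 10 * H ^ 2 * u ^ 2)

/-- equal regions: the coordinates agree up to order -/
def EQREG : Prop := ∀ (u i j i' j' : ℤ), 1 ≤ u → 1 ≤ i → 1 ≤ j → 1 ≤ i' → 1 ≤ j' → NN u i j = NN u i' j' →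
  (i + j = i' + j' ∨ ((i - j) ^ 2 < 9 * u ^ 2 ∧ (i' - j') ^ 2 < 9 * u ^ 2)) → (i = i' ∧ j = j') ∨ (i = j' ∧ j = i')

/-- the inequality between the logarithms -/
def ARTANH : Prop := ∀ (u i j : ℤ), 1 ≤ u → 1 ≤ j → j < i →
  1 / (100 * ((i : ℝ) + j) ^ 2) ≤ 2 * ((i : ℝ) - j) / (i + j) * Real.log (la u) - Real.log (WW u i j / WW u j i)

/-- proportional coordinates -/
def PARAL : Prop := ∀ (u u' S S' d d' : ℤ), 1 ≤ u → 1 ≤ u' → 1 ≤ S → 1 ≤ S' → |d| ≤ S → |d'| ≤ S' → S' * u = S * u' →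
  (d' : ℝ) * Real.sqrt (De u') * u ^ 2 = d * Real.sqrt (De u) * u' ^ 2 →
  |(d : ℝ) * Real.log (la u) - d' * Real.log (la u')| + S' * |Real.log ((u : ℝ) ^ 2 * De u' / ((u' : ℝ) ^ 2 * De u))| ≤
    100 * |(S : ℝ) - S'| * (1 + Real.log (la u) + Real.log (la u'))

/-- the coefficient is multiplicatively independent of the unit -/
def EXA1 : Prop := ∀ (u A B N M : ℤ), RunD u A B → 1 ≤ N → (N : ℝ) * Real.log (X0 u A B) ≠ M * Real.log (la u)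

/-- exact relation in the case of equal sizes -/
def EXA2 : Prop := ∀ (u u' i j i' j' N M : ℤ) (n : ℕ), 1 ≤ u → 1 ≤ u' → 1 ≤ i → 1 ≤ j → 1 ≤ i' → 1 ≤ j' →
  (n : ℤ) ^ 2 = (9 * u ^ 2 - 4) * (9 * u' ^ 2 - 4) → 1 ≤ N →
  (N : ℝ) * Real.log (WW u i j * De u' / (WW u' i' j' * De u)) = M * Real.log (la u) →
  (NN u i j : ℝ) * De u' ^ 2 = NN u' i' j' * De u ^ 2

/-- the words at the position are the same -/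
def SameP (u A B : ℤ) (n : ℕ) (i j u' A' B' : ℤ) (n' : ℕ) (i' j' : ℤ) : Prop :=
  u = u' ∧ i = i' ∧ j = j' ∧ tt u A B n = tt u' A' B' n'

/-- the data of one position: equal values up to a small error -/
structure PosD (u A B : ℤ) (n : ℕ) (i j u' A' B' : ℤ) (n' : ℕ) (i' j' : ℤ) (H P : ℝ) : Prop where
  i1 : 1 ≤ i
  j1 : 1 ≤ j
  i1' : 1 ≤ i'
  j1' : 1 ≤ j'
  co : IsCoprime i j
  co' : IsCoprime i' j'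
  iH : ((i : ℝ) + j) ≤ H
  iH' : ((i' : ℝ) + j') ≤ H
  nH : (n : ℝ) ≤ H
  nH' : (n' : ℝ) ≤ H
  tP : P ≤ 16 * tt u A B n
  gap : |GG u A B n i j - GG u' A' B' n' i' j'| ≤ GG u A B n i j * Real.exp (-P)
  lin : |LL u A B n i j - LL u' A' B' n' i' j'| ≤ Real.exp (-P)

/-- two positions: the fields agree and the levels are comparable -/
def PAIRX : Prop := ∃ C : ℝ, 1 ≤ C ∧ ∀ (u A B u' A' B' i1 j1 i2 j2 i1' j1' i2' j2' : ℤ) (n1 n2 n1' n2' : ℕ) (H P : ℝ),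
  RunD u A B → RunD u' A' B' → n1 < n2 → n1' < n2' → 2 ≤ H → C * Real.log H ≤ P → C * Real.log (la u) ≤ P →
  C * Real.log (la u') ≤ P → C * (((n2 : ℝ) - n1) * Real.log (la u)) ≤ P →
  C * (((n2' : ℝ) - n1') * Real.log (la u')) ≤ P →
  PosD u A B n1 i1 j1 u' A' B' n1' i1' j1' H P → PosD u A B n2 i2 j2 u' A' B' n2' i2' j2' H P →
  (∃ n : ℕ, (n : ℤ) ^ 2 = (9 * u ^ 2 - 4) * (9 * u' ^ 2 - 4)) ∧
    |((n2 : ℝ) - n1) * Real.log (la u) - ((n2' : ℝ) - n1') * Real.log (la u')| ≤ 2 * Real.log H + 1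

/-- **Two positions.** -/
def TWOPOS : Prop := ∃ C : ℝ, 1 ≤ C ∧ ∀ (u A B u' A' B' i1 j1 i2 j2 i1' j1' i2' j2' : ℤ) (n1 n2 n1' n2' : ℕ) (H P : ℝ),
  RunD u A B → RunD u' A' B' → n1 < n2 → n1' < n2' → 2 ≤ H → C * Real.log H ≤ P → C * Real.log (la u) ≤ P →
  C * Real.log (la u') ≤ P → C * (((n2 : ℝ) - n1) * Real.log (la u)) ≤ P →
  C * (((n2' : ℝ) - n1') * Real.log (la u')) ≤ P → C * Real.log H ^ 4 ≤ P →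
  PosD u A B n1 i1 j1 u' A' B' n1' i1' j1' H P → PosD u A B n2 i2 j2 u' A' B' n2' i2' j2' H P →
  ((n2 : ℝ) - n1) * Real.log (la u) = ((n2' : ℝ) - n1') * Real.log (la u') →
  SameP u A B n1 i1 j1 u' A' B' n1' i1' j1' ∨ SameP u A B n2 i2 j2 u' A' B' n2' i2' j2'

/-- integer vectors with quickly decreasing values of a linear form -/
def LINALG : Prop := ∀ (n : ℕ) (v : ℕ → Fin 4 → ℤ) (w : Fin 4 → ℝ) (δ : ℕ → ℝ) (K : ℝ), 1 ≤ K →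
  (∀ i k, i < n → |(v i k : ℝ)| ≤ K) → (∀ i j, i ≤ j → j < n → δ j ≤ δ i) → (∀ i, i < n → 0 ≤ δ i) →
  (∀ i, i < n → |∑ k, w k * v i k| ≤ δ i) → 1 ≤ n →
  ∃ a b : ℕ, a ≤ b ∧ b < n ∧ n ≤ 5 * (b + 1 - a) ∧ ∀ i, a ≤ i → i ≤ b → |∑ k, w k * v i k| ≤ 96 * K ^ 4 * δ b

/-- a dense group of levels -/
def GROUP : Prop := ∀ (N K : ℕ) (s : ℕ → ℝ) (c R : ℝ), 1 ≤ K → 0 < c → c ≤ 1 → 1 ≤ R →
  (∀ i, i < N → s i + 1 ≤ s (i + 1)) → s N - s 0 ≤ R → (K : ℝ) * (3 + 2 * Real.log R / c) ≤ N →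
  ∃ i, i + K ≤ N ∧ s (i + K) - s i ≤ c * (s N - s (i + K)) ∧ 1 ≤ s N - s (i + K)

end

end Pool.Agent.N576.MX2
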