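import Mathlib
import Pool.Agent.N576.MX.K6
import Pool.Agent.N576.MX2.D

set_option autoImplicit false

/-!
# Statements of the project MX2 (helper576), part 2: words
-/

namespace Pool.Agent.N576.MX2

open Pool.Agent.H499R2 Pool.Agent.TH880.MK Pool.Agent.N576.MK
open Pool.Agent.N576.MX (rn ofr piv pvs wv jj RUNREP UNIQ RUNX)

noncomputable section

/-- the levels and the values along a run, with the first order gap -/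
def POSX : Prop := ∀ (g : List Bool) (c : Bool), ∃ (A B : ℤ) (k : ℕ), RunD (piv g c) A B ∧
  (∀ m : ℕ, 3 * (wv g c m : ℝ) = Real.exp (tt (piv g c) A B (m + k)) +
    9 * (piv g c : ℝ) ^ 2 / De (piv g c) * Real.exp (-tt (piv g c) A B (m + k))) ∧
  (∀ m : ℕ, |FF (rn g c m) - (tt (piv g c) A B (m + k) + Real.log (la (piv g c)))| ≤ 1) ∧
  (∀ m : ℕ, m + k ≤ 10 * sz (rn g c m)) ∧
  (∀ (H m : ℕ) (s : List Bool), 1 ≤ m → sz (ofr g c m s) ≤ H →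
    |FF (ofr g c m s) - (LL (piv g c) A B (m + k) ((sz s : ℤ) - jj c s) (jj c s) +
      GG (piv g c) A B (m + k) ((sz s : ℤ) - jj c s) (jj c s))| ≤
      10 ^ 4 * H * Real.exp (-4 * tt (piv g c) A B (m + k) - 2 * Real.log (la (piv g c))))

/-- the same values lead to the same word -/
def SAMEW : Prop := ∀ (g g' : List Bool) (c c' : Bool) (m m' : ℕ) (s s' : List Bool), piv g c = piv g' c' →
  wv g c m = wv g' c' m' → wv g c (m + 1) = wv g' c' (m' + 1) → jj c s = jj c' s' → sz s = sz s' →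
  ofr g c m s = ofr g' c' m' s'

/-- two runs: few pairs of positions with equal values -/
def COMB0 : Prop := ∃ C : ℝ, 0 < C ∧ ∀ (H ρ : ℕ) (g g' : List Bool) (c c' : Bool) (T : Finset ℕ) (τ : ℕ → ℕ)
  (s s' : ℕ → List Bool) (σ : ℝ), 2 ≤ H → 2 ≤ ρ → (10 : ℝ) ^ 20 * ((4 * H : ℕ) : ℝ) ^ 20 ≤ 4 ^ ρ →
  (∀ m ∈ T, 1 ≤ m ∧ 1 ≤ τ m ∧ sz (ofr g c m (s m)) ≤ H ∧ sz (ofr g' c' (τ m) (s' m)) ≤ H ∧
    FF (ofr g c m (s m)) = FF (ofr g' c' (τ m) (s' m)) ∧ ofr g c m (s m) ≠ ofr g' c' (τ m) (s' m) ∧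
    |FF (rn g c m) - FF (rn g' c' (τ m))| ≤ ρ ∧ σ ≤ FF (rn g c m) ∧ FF (rn g c m) ≤ 8 * σ) →
  (∀ m ∈ T, ∀ n ∈ T, m < n → τ m < τ n ∧ FF (rn g c m) + 4 * ρ ≤ FF (rn g c n)) →
  (T.card : ℝ) ≤ C * (ρ : ℝ) ^ 5

/-- two paths: few pairs of branches at comparable levels with equal values -/
def COMBP : Prop := ∃ C : ℝ, 0 < C ∧ ∀ (H ρ : ℕ) (P P' : List Bool) (T : Finset ℕ) (l φ N : ℕ → List Bool)
  (d d' : ℕ → Bool), 2 ≤ H → 2 ≤ ρ → (10 : ℝ) ^ 20 * ((4 * H : ℕ) : ℝ) ^ 20 ≤ 4 ^ ρ →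
  (∀ m ∈ T, P.take m ++ [d m] <+: l m ∧ P.take m ++ [!(d m)] <+: P ∧ N m ++ [d' m] <+: φ m ∧ N m ++ [!(d' m)] <+: P' ∧
    |FF (N m) - FF (P.take m)| ≤ ρ ∧ sz (l m) ≤ H ∧ sz (φ m) ≤ H ∧ φ m ≠ l m ∧ FF (φ m) = FF (l m)) →
  (T.card : ℝ) ≤ C * (ρ : ℝ) ^ 8

/-- words branching off a path -/
structure PFam (H : ℕ) (P : List Bool) (S : Finset ℕ) (l φ : ℕ → List Bool) : Prop where
  off : ∀ m ∈ S, ∃ d, P.take m ++ [d] <+: l m ∧ P.take m ++ [!d] <+: P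
  s1 : ∀ m ∈ S, sz (l m) ≤ H
  s2 : ∀ m ∈ S, sz (φ m) ≤ H
  ne : ∀ m ∈ S, φ m ≠ l m
  val : ∀ m ∈ S, FF (φ m) = FF (l m)

/-- a family is combed: the partners branch off one word at comparable levels -/
def PCmb (ρ : ℕ) (P : List Bool) (T : Finset ℕ) (φ : ℕ → List Bool) : Prop :=
  ∃ P' : List Bool, ∀ m ∈ T, ∃ N d, N ++ [d] <+: φ m ∧ N ++ [!d] <+: P' ∧ |FF N - FF (P.take m)| ≤ ρ

/-- the number of branches in terms of combed families -/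
def PFTOTAL : Prop := ∀ {H ρ : ℕ}, 1 ≤ H → 2 ≤ ρ → (10 : ℝ) ^ 20 * ((4 * H : ℕ) : ℝ) ^ 20 ≤ 4 ^ ρ → ∀ {L : ℝ}, ChL H L →
  ∀ {P : List Bool} {S : Finset ℕ} {l φ : ℕ → List Bool}, PFam H P S l φ → ∀ {B1 : ℝ},
  (∀ T ⊆ S, PCmb ρ P T φ → (T.card : ℝ) ≤ B1) →
    (S.card : ℝ) ≤ 4 * (4 * ρ + 1) * ((10 * ρ ^ 2 + 4) * L) + (19 * ρ ^ 2 + 6) * (4 * (4 * ρ + 1) + B1 +
      4 * ((4 * ρ + 1) * (4 * (4 * ρ + 1) * ((L + 1) * (B1 + (4 * ρ + 1) + 3) + 1))))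

/-- exceptional words branch off a path at few places -/
def PATH0 : Prop := ∃ (C : ℝ) (n : ℕ), 0 < C ∧ ∀ (H : ℕ) (P : List Bool) (S : Finset ℕ), 2 ≤ H →
  (∀ m ∈ S, ∃ d l φ, P.take m ++ [d] <+: l ∧ P.take m ++ [!d] <+: P ∧ sz l ≤ H ∧ sz φ ≤ H ∧ φ ≠ l ∧ FF φ = FF l) →
  (S.card : ℝ) ≤ C * lm H ^ n

/-- the exceptional words form a class -/
def CLSX : Prop := ∀ (H S0 : ℕ) (L B : ℝ), 2 ≤ H → ChL H L → 1 ≤ B →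
  (∀ (P : List Bool) (S : Finset ℕ), (∀ m ∈ S, ∃ d l φ, P.take m ++ [d] <+: l ∧ P.take m ++ [!d] <+: P ∧
    sz l ≤ 4 * H ∧ sz φ ≤ 4 * H ∧ φ ≠ l ∧ FF φ = FF l) → (S.card : ℝ) ≤ B) →
  Cls H S0 (fun l => Exw l ∧ sz l ≤ H) (fun _ => 4 * (L + B + 1)) (4 * (L + B + 1) * B)

/-- **The number of exceptional words.** -/
def FINALX : Prop := ∀ ε : ℝ, 0 < ε → ∃ C : ℝ, 0 < C ∧ ∀ (H : ℕ) (Z : Finset (List Bool)), 1 ≤ H →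
  (∀ l ∈ Z, Pool.Agent.N576.MX.Exc H l) → (Z.card : ℝ) ≤ C * (H : ℝ) ^ ε

end

end Pool.Agent.N576.MX2
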