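import Mathlib
import Pool.Agent.N576.MX2.D

set_option autoImplicit false

/-!
# Positions: estimates (helper576)
-/

namespace Pool.Agent.N576.MX2

noncomputable section

lemma De_ge {u : ℤ} (hu : 1 ≤ u) : 5 * (u : ℝ) ^ 2 ≤ De u := by
  have h : (1 : ℝ) ≤ u := by exact_mod_cast hu
  unfold De
  nlinarith

lemma De_pos {u : ℤ} (hu : 1 ≤ u) : 0 < De u := by
  have h : (1 : ℝ) ≤ u := by exact_mod_cast hu
  have := De_ge hu
  nlinarith

lemma sqrt_le {u : ℤ} (hu : 1 ≤ u) : Real.sqrt (De u) ≤ 3 * u := by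
  have h : (1 : ℝ) ≤ u := by exact_mod_cast hu
  rw [Real.sqrt_le_left (by linarith)]
  unfold De
  nlinarith

lemma sqrt_ge {u : ℤ} (hu : 1 ≤ u) : 2 * (u : ℝ) ≤ Real.sqrt (De u) := by
  have h : (1 : ℝ) ≤ u := by exact_mod_cast hu
  have := De_ge hu
  apply Real.le_sqrt_of_sq_le
  nlinarith

lemma la_eq (u : ℤ) : la u = (3 * u + Real.sqrt (De u)) / 2 := rfl

lemma la_ge {u : ℤ} (hu : 1 ≤ u) : 5 / 2 * (u : ℝ) ≤ la u := by
  rw [la_eq]
  have := sqrt_ge hu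
  linarith

lemma la_le {u : ℤ} (hu : 1 ≤ u) : la u ≤ 3 * u := by
  rw [la_eq]
  have := sqrt_le hu
  linarith

lemma la_pos {u : ℤ} (hu : 1 ≤ u) : 0 < la u := by
  have h : (1 : ℝ) ≤ u := by exact_mod_cast hu
  have := la_ge hu
  linarith

lemma la_two {u : ℤ} (hu : 1 ≤ u) : 5 / 2 ≤ la u := by
  have h : (1 : ℝ) ≤ u := by exact_mod_cast hu
  have := la_ge hu
  linarith

lemma sqrt_le_la {u : ℤ} (hu : 1 ≤ u) : Real.sqrt (De u) ≤ la u := by
  rw [la_eq]
  have := sqrt_le hu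
  linarith

lemma De_le_la {u : ℤ} (hu : 1 ≤ u) : De u ≤ la u ^ 2 := by
  have h1 := sqrt_le_la hu
  have h2 := Real.sq_sqrt (De_pos hu).le
  have h3 := Real.sqrt_nonneg (De u)
  nlinarith

lemma la_le_De {u : ℤ} (hu : 1 ≤ u) : la u ^ 2 ≤ 2 * De u := by
  have h : (1 : ℝ) ≤ u := by exact_mod_cast hu
  have h1 := la_le hu
  have h2 := la_pos hu
  have h3 := De_ge hu
  nlinarith

lemma la_exp {u : ℤ} (hu : 1 ≤ u) : Real.exp (-2 * Real.log (la u)) = (la u ^ 2)⁻¹ := by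
  have h := la_pos hu
  rw [show -2 * Real.log (la u) = -(Real.log (la u) + Real.log (la u)) by ring, Real.exp_neg, Real.exp_add,
    Real.exp_log h]
  ring

lemma logla_pos {u : ℤ} (hu : 1 ≤ u) : 0 < Real.log (la u) := Real.log_pos (by linarith [la_two hu])

/-- the levels are nonnegative -/
lemma tt_nonneg {u A B : ℤ} (h : RunD u A B) {n : ℕ} (hn : 1 ≤ n) : 0 ≤ tt u A B n := by
  obtain ⟨hA1, hAu, hB1, hBu, -⟩ := h
  have hu : 1 ≤ u := by omega
  have hur : (1 : ℝ) ≤ u := by exact_mod_cast hu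
  have hA : (A : ℝ) ≤ u := by exact_mod_cast hAu
  have hB : (1 : ℝ) ≤ B := by exact_mod_cast hB1
  have hl := la_pos hu
  have hl2 := la_ge hu
  have hs0 : 0 < Real.sqrt (De u) := Real.sqrt_pos.2 (De_pos hu)
  have h1 : 1 ≤ X0 u A B * la u := by
    unfold X0 Xi
    have e : (3 * (B : ℝ) - 3 * A * (la u)⁻¹) / Real.sqrt (De u) * la u =
        (3 * B * la u - 3 * A) / Real.sqrt (De u) := by
      field_simp
    rw [e, le_div_iff₀ hs0]
    have h2 : la u ≤ B * la u := le_mul_of_one_le_left hl.le hB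
    have h3 := la_eq u
    nlinarith
  have h2 : 0 < X0 u A B := by
    by_contra hcon
    push Not at hcon
    nlinarith
  have h3 : 0 ≤ Real.log (X0 u A B) + Real.log (la u) := by
    rw [← Real.log_mul h2.ne' hl.ne']
    exact Real.log_nonneg h1
  have h4 : Real.log (la u) ≤ n * Real.log (la u) :=
    le_mul_of_one_le_left (logla_pos hu).le (by exact_mod_cast hn)
  unfold tt
  linarith

/-- the first order gap, from above -/
lemma GG_le {u A B : ℤ} {n : ℕ} {i j : ℤ} (hu : 1 ≤ u) (hi : 1 ≤ i) (hj : 1 ≤ j) :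
    GG u A B n i j ≤ 8 * (i + j) * Real.exp (-2 * (tt u A B n + Real.log (la u))) := by
  have hi' : (1 : ℝ) ≤ i := by exact_mod_cast hi
  have hj' : (1 : ℝ) ≤ j := by exact_mod_cast hj
  have hD := De_pos hu
  have hl := la_pos hu
  have e1 : Real.exp (-2 * (tt u A B n + Real.log (la u))) =
      Real.exp (-2 * tt u A B n) * (la u ^ 2)⁻¹ := by
    rw [← la_exp hu, ← Real.exp_add]; ring_nf
  rw [e1]
  unfold GG
  have h1 : (i : ℝ) + j * (la u)⁻¹ ^ 2 ≤ i + j := by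
    have : (la u)⁻¹ ^ 2 ≤ 1 := pow_le_one₀ (by positivity) (inv_le_one_of_one_le₀ (by linarith [la_two hu]))
    nlinarith
  have h2 : 4 / De u ≤ 8 * (la u ^ 2)⁻¹ := by
    rw [div_le_iff₀ hD, ← div_eq_mul_inv, div_mul_eq_mul_div, le_div_iff₀ (by positivity)]
    linarith [la_le_De hu]
  calc 4 / De u * (i + j * (la u)⁻¹ ^ 2) * Real.exp (-2 * tt u A B n)
      ≤ (8 * (la u ^ 2)⁻¹) * (i + j) * Real.exp (-2 * tt u A B n) := by gcongr
    _ = _ := by ring

/-- the first order gap, from below -/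
lemma GG_ge {u A B : ℤ} {n : ℕ} {i j : ℤ} (hu : 1 ≤ u) (hi : 1 ≤ i) (hj : 1 ≤ j) :
    4 * Real.exp (-2 * (tt u A B n + Real.log (la u))) ≤ GG u A B n i j := by
  have hi' : (1 : ℝ) ≤ i := by exact_mod_cast hi
  have hj' : (1 : ℝ) ≤ j := by exact_mod_cast hj
  have hD := De_pos hu
  have hl := la_pos hu
  have e1 : Real.exp (-2 * (tt u A B n + Real.log (la u))) =
      Real.exp (-2 * tt u A B n) * (la u ^ 2)⁻¹ := by
    rw [← la_exp hu, ← Real.exp_add]; ring_nf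
  rw [e1]
  unfold GG
  have h1 : (1 : ℝ) ≤ i + j * (la u)⁻¹ ^ 2 := by
    have : 0 ≤ (j : ℝ) * (la u)⁻¹ ^ 2 := by positivity
    linarith
  have h2 : 4 * (la u ^ 2)⁻¹ ≤ 4 / De u := by
    rw [div_eq_mul_inv]
    exact mul_le_mul_of_nonneg_left (inv_anti₀ hD (De_le_la hu)) (by norm_num)
  calc 4 * (Real.exp (-2 * tt u A B n) * (la u ^ 2)⁻¹) = (4 * (la u ^ 2)⁻¹) * 1 * Real.exp (-2 * tt u A B n) := by ring
    _ ≤ 4 / De u * (i + j * (la u)⁻¹ ^ 2) * Real.exp (-2 * tt u A B n) := by gcongr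

end

end Pool.Agent.N576.MX2
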