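import Mathlib
import Pool.Agent.N576.MX2.C1

set_option autoImplicit false

/-!
# Positions: the data of one position (helper576)
-/

namespace Pool.Agent.N576.MX2

noncomputable section

/-- a position of a sequence gives the data -/
lemma posd {u A B : ℤ} {n : ℕ} {i j u' A' B' : ℤ} {n' : ℕ} {i' j' : ℤ} {H : ℝ} {ρ l l' Q lN : ℝ}
    (hu : 1 ≤ u) (hu' : 1 ≤ u') (i1 : 1 ≤ i) (j1 : 1 ≤ j) (i1' : 1 ≤ i') (j1' : 1 ≤ j') (co : IsCoprime i j)
    (co' : IsCoprime i' j') (iH : ((i : ℝ) + j) ≤ H) (iH' : ((i' : ℝ) + j') ≤ H) (nH : (n : ℝ) ≤ H)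
    (nH' : (n' : ℝ) ≤ H) (hl : |l - (tt u A B n + Real.log (la u))| ≤ 1)
    (hl' : |l' - (tt u' A' B' n' + Real.log (la u'))| ≤ 1) (hn : |l - l'| ≤ ρ)
    (lin : |LL u A B n i j - LL u' A' B' n' i' j'| ≤ Real.exp (3 * ρ - 2 * lN))
    (gap : |(LL u A B n i j + GG u A B n i j) - (LL u' A' B' n' i' j' + GG u' A' B' n' i' j')| ≤
      Real.exp ρ * Real.exp (-4 * tt u A B n - 2 * Real.log (la u)) +
      Real.exp ρ * Real.exp (-4 * tt u' A' B' n' - 2 * Real.log (la u')))
    (hQ1 : l + Q ≤ lN) (hQ2 : Q ≤ lN) (ht : Q / 8 ≤ tt u A B n) (ht' : Q / 8 ≤ tt u' A' B' n')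
    (hρ : 2 ≤ ρ) (hQρ : 100 * ρ ≤ Q) :
    PosD u A B n i j u' A' B' n' i' j' H (Q / 16) := by
  have hG := GG_ge (A := A) (B := B) (n := n) hu i1 j1
  set t := tt u A B n with htd
  set t' := tt u' A' B' n' with htd'
  set F := Real.log (la u) with hF
  set F' := Real.log (la u') with hF'
  have hl1 := abs_le.mp hl
  have hl1' := abs_le.mp hl'
  have hn1 := abs_le.mp hn
  refine ⟨i1, j1, i1', j1', co, co', iH, iH', nH, nH', by linarith, ?_, ?_⟩
  · set G := GG u A B n i j with hGd
    set G' := GG u' A' B' n' i' j' with hGd'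
    set L := LL u A B n i j with hLd
    set L' := LL u' A' B' n' i' j' with hLd'
    have h1 : |G - G'| ≤ |(L + G) - (L' + G')| + |L - L'| := by
      have := abs_sub ((L + G) - (L' + G')) (L - L')
      rw [show ((L + G) - (L' + G')) - (L - L') = G - G' by ring] at this
      exact this
    have hG0 : 0 < G := lt_of_lt_of_le (by positivity) hG
    -- the three parts
    have p1 : Real.exp (3 * ρ - 2 * lN) ≤ G / 4 * Real.exp (-(Q / 16)) := by
      have e1 : Real.exp (3 * ρ - 2 * lN) ≤ Real.exp (-2 * (t + F)) * Real.exp (-(Q / 16)) := by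
        rw [← Real.exp_add]
        apply Real.exp_le_exp.2
        linarith
      have e2 := mul_le_mul_of_nonneg_right hG (Real.exp_pos (-(Q / 16))).le
      linarith
    have p2 : Real.exp ρ * Real.exp (-4 * t - 2 * F) ≤ G / 4 * Real.exp (-(Q / 16)) := by
      have e1 : Real.exp ρ * Real.exp (-4 * t - 2 * F) ≤ Real.exp (-2 * (t + F)) * Real.exp (-(Q / 16)) := by
        rw [← Real.exp_add, ← Real.exp_add]
        apply Real.exp_le_exp.2
        linarith
      have e2 := mul_le_mul_of_nonneg_right hG (Real.exp_pos (-(Q / 16))).le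
      linarith
    have p3 : Real.exp ρ * Real.exp (-4 * t' - 2 * F') ≤ G / 4 * Real.exp (-(Q / 16)) := by
      have e1 : Real.exp ρ * Real.exp (-4 * t' - 2 * F') ≤ Real.exp (-2 * (t + F)) * Real.exp (-(Q / 16)) := by
        rw [← Real.exp_add, ← Real.exp_add]
        apply Real.exp_le_exp.2
        linarith
      have e2 := mul_le_mul_of_nonneg_right hG (Real.exp_pos (-(Q / 16))).le
      linarith
    have hE := Real.exp_pos (-(Q / 16))
    have hGE : 0 < G * Real.exp (-(Q / 16)) := by positivity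
    nlinarith
  · refine lin.trans (Real.exp_le_exp.2 ?_)
    linarith

end

end Pool.Agent.N576.MX2
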