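import Mathlib
import Pool.Agent.N576.MX2.C2

set_option autoImplicit false

/-!
# A dense group of positions contains two with equal level differences (helper576)
-/

namespace Pool.Agent.N576.MX2

noncomputable section

/-- a sequence of positions -/
structure SeqD (u A B u' A' B' : ℤ) (N : ℕ) (n n' : ℕ → ℕ) (i j i' j' : ℕ → ℤ) (l l' : ℕ → ℝ) (H σ : ℝ)
    (ρ : ℕ) : Prop where
  i1 : ∀ x ≤ N, 1 ≤ i x
  j1 : ∀ x ≤ N, 1 ≤ j x
  i1' : ∀ x ≤ N, 1 ≤ i' x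
  j1' : ∀ x ≤ N, 1 ≤ j' x
  co : ∀ x ≤ N, IsCoprime (i x) (j x)
  co' : ∀ x ≤ N, IsCoprime (i' x) (j' x)
  iH : ∀ x ≤ N, ((i x : ℝ) + j x) ≤ H
  iH' : ∀ x ≤ N, ((i' x : ℝ) + j' x) ≤ H
  nH : ∀ x ≤ N, (n x : ℝ) ≤ H
  nH' : ∀ x ≤ N, (n' x : ℝ) ≤ H
  lev : ∀ x ≤ N, |l x - (tt u A B (n x) + Real.log (la u))| ≤ 1
  lev' : ∀ x ≤ N, |l' x - (tt u' A' B' (n' x) + Real.log (la u'))| ≤ 1
  near : ∀ x ≤ N, |l x - l' x| ≤ ρ
  inc : ∀ x y, x < y → y ≤ N → n x < n y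
  inc' : ∀ x y, x < y → y ≤ N → n' x < n' y
  spread : ∀ x < N, l x + 4 * ρ ≤ l (x + 1)
  s1 : ∀ x ≤ N, σ ≤ l x
  s8 : ∀ x ≤ N, l x ≤ 8 * σ
  lin : ∀ x ≤ N, |LL u A B (n x) (i x) (j x) - LL u' A' B' (n' x) (i' x) (j' x)| ≤ Real.exp (3 * ρ - 2 * l N)
  gap : ∀ x ≤ N, |(LL u A B (n x) (i x) (j x) + GG u A B (n x) (i x) (j x)) -
      (LL u' A' B' (n' x) (i' x) (j' x) + GG u' A' B' (n' x) (i' x) (j' x))| ≤
      Real.exp ρ * Real.exp (-4 * tt u A B (n x) - 2 * Real.log (la u)) +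
      Real.exp ρ * Real.exp (-4 * tt u' A' B' (n' x) - 2 * Real.log (la u'))

lemma SeqD.mono {u A B u' A' B' : ℤ} {N : ℕ} {n n' : ℕ → ℕ} {i j i' j' : ℕ → ℤ} {l l' : ℕ → ℝ} {H σ : ℝ} {ρ : ℕ}
    (h : SeqD u A B u' A' B' N n n' i j i' j' l l' H σ ρ) (x d : ℕ) (hx : x + d ≤ N) :
    l x + 4 * ρ * d ≤ l (x + d) := by
  induction d with
  | zero => simp
  | succ d ih =>
    have h1 := ih (by omega)
    have h2 := h.spread (x + d) (by omega)
    rw [← add_assoc]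
    push_cast
    linarith

/-- **A dense group.** -/
theorem dense (hP : PAIRX) (hU : UNITSEP) (hT : TWOPOS) (hG : GROUP) : ∃ C : ℝ, 1 ≤ C ∧
    ∀ (u A B u' A' B' : ℤ) (N : ℕ) (n n' : ℕ → ℕ) (i j i' j' : ℕ → ℤ) (l l' : ℕ → ℝ) (H σ : ℝ) (ρ : ℕ),
    RunD u A B → RunD u' A' B' → SeqD u A B u' A' B' N n n' i j i' j' l l' H σ ρ → 8 ≤ ρ → 2 ≤ H →
    Real.log H ≤ ρ → l N ≤ Real.exp ρ → C * (ρ : ℝ) ^ 4 ≤ N →
    ∃ x ≤ N, SameP u A B (n x) (i x) (j x) u' A' B' (n' x) (i' x) (j' x) := by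
  classical
  obtain ⟨C1, hC1, hP⟩ := hP
  obtain ⟨C2, hC2, hT⟩ := hT
  obtain ⟨C0, hC0⟩ : ∃ C0, C0 = C1 + C2 := ⟨_, rfl⟩
  have hC0' : 2 ≤ C0 := by linarith
  refine ⟨3 + 200 * C0, by linarith, ?_⟩
  intro u A B u' A' B' N n n' i j i' j' l l' H σ ρ hR hR' h hρ hH hHρ hlN hN
  have hu : 1 ≤ u := by obtain ⟨a, b, -⟩ := hR; omega
  have hu' : 1 ≤ u' := by obtain ⟨a, b, -⟩ := hR'; omega
  have hρ8 : (8 : ℝ) ≤ ρ := by exact_mod_cast hρ
  have hσ : 0 ≤ σ := by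
    have h1 := h.s1 0 (Nat.zero_le _)
    have h2 := h.s8 0 (Nat.zero_le _)
    linarith
  have hρ4 : (512 : ℝ) * ρ ≤ (ρ : ℝ) ^ 4 := by
    have e : (ρ : ℝ) ^ 4 = ρ ^ 3 * ρ := by ring
    rw [e]
    apply mul_le_mul_of_nonneg_right _ (by linarith)
    calc (512 : ℝ) = 8 ^ 3 := by norm_num
      _ ≤ (ρ : ℝ) ^ 3 := pow_le_pow_left₀ (by norm_num) hρ8 3
  obtain ⟨x0, hx0, hd, hone⟩ := hG N (ρ ^ 3) l (1 / (100 * C0)) (Real.exp ρ) (Nat.one_le_pow _ _ (by omega))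
    (by positivity) (by rw [div_le_one (by positivity)]; linarith) (Real.one_le_exp (by linarith))
    (fun x hx => by have := h.spread x hx; linarith)
    (by have := h.s1 0 (Nat.zero_le _); linarith)
    (by
      rw [Real.log_exp]
      push_cast
      have e : (ρ : ℝ) ^ 3 * (3 + 2 * ρ / (1 / (100 * C0))) = 3 * ρ ^ 3 + 200 * C0 * ρ ^ 4 := by
        field_simp
        ring
      rw [e]
      have e3 : (ρ : ℝ) ^ 3 ≤ ρ ^ 4 := pow_le_pow_right₀ (by linarith) (by norm_num)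
      linarith)
  obtain ⟨K, hK⟩ : ∃ K, K = ρ ^ 3 := ⟨_, rfl⟩
  rw [← hK] at hx0 hd hone
  obtain ⟨Q, hQ⟩ : ∃ Q, Q = l N - l (x0 + K) := ⟨_, rfl⟩
  rw [← hQ] at hd hone
  obtain ⟨r, hr⟩ : ∃ r, r = l (x0 + K) - l x0 := ⟨_, rfl⟩
  rw [← hr] at hd
  have hKr : 4 * (ρ : ℝ) ^ 4 ≤ r := by
    have h1 := h.mono x0 K hx0
    have h2 : (K : ℝ) = ρ ^ 3 := by rw [hK]; push_cast; ring
    rw [h2] at h1
    have e : 4 * (ρ : ℝ) * ρ ^ 3 = 4 * ρ ^ 4 := by ring
    linarith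
  have hrQ : r * (100 * C0) ≤ Q := by
    rw [div_mul_eq_mul_div, one_mul, le_div_iff₀ (by positivity)] at hd
    exact hd
  have hr0 : 0 ≤ r := by linarith [hKr, hρ4]
  have hr200 : 200 * r ≤ Q := by nlinarith
  have hQ4 : 400 * (C0 * (ρ : ℝ) ^ 4) ≤ Q := by
    have : 4 * (ρ : ℝ) ^ 4 * (100 * C0) ≤ r * (100 * C0) := mul_le_mul_of_nonneg_right hKr (by positivity)
    nlinarith
  have hC4 : 512 * (C0 * ρ) ≤ C0 * (ρ : ℝ) ^ 4 := by nlinarith
  have hCρ : 2 * (ρ : ℝ) ≤ C0 * ρ := mul_le_mul_of_nonneg_right hC0' (by linarith)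
  have hQρ : 400 * 1024 * (ρ : ℝ) ≤ Q := by linarith
  have hσQ : Q ≤ 7 * σ := by
    have h1 := h.s8 N le_rfl
    have h2 := h.s1 (x0 + K) hx0
    linarith
  have hrange : ∀ x, x0 ≤ x → x ≤ x0 + K → l x0 ≤ l x ∧ l x ≤ l (x0 + K) := by
    intro x h1 h2
    obtain ⟨d, rfl⟩ := Nat.exists_eq_add_of_le h1
    obtain ⟨e, he⟩ := Nat.exists_eq_add_of_le h2
    have h3 := h.mono x0 d (by omega)
    have h4 := h.mono (x0 + d) e (by omega)
    rw [← he] at h4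
    have : (0 : ℝ) ≤ 4 * ρ * d := by positivity
    have : (0 : ℝ) ≤ 4 * ρ * e := by positivity
    constructor <;> linarith
  have hdF : ∀ a b, x0 ≤ a → a ≤ b → b ≤ x0 + K → ((n b : ℝ) - n a) * Real.log (la u) ≤ r + 2 := by
    intro a b ha hab hb
    have h1 := abs_le.mp (h.lev a (by omega))
    have h2 := abs_le.mp (h.lev b (by omega))
    have h3 := hrange a ha (by omega)
    have h4 := hrange b (by omega) hb
    unfold tt at h1 h2
    linarith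
  have hdF' : ∀ a b, x0 ≤ a → a ≤ b → b ≤ x0 + K → ((n' b : ℝ) - n' a) * Real.log (la u') ≤ r + 2 * ρ + 2 := by
    intro a b ha hab hb
    have h1 := abs_le.mp (h.lev' a (by omega))
    have h2 := abs_le.mp (h.lev' b (by omega))
    have h3 := hrange a ha (by omega)
    have h4 := hrange b (by omega) hb
    have h5 := abs_le.mp (h.near a (by omega))
    have h6 := abs_le.mp (h.near b (by omega))
    unfold tt at h1 h2
    linarith
  have hKpos : 1 ≤ K := by rw [hK]; exact Nat.one_le_pow _ _ (by omega)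
  have hF : Real.log (la u) ≤ r + 2 := by
    have h1 := hdF x0 (x0 + K) le_rfl (by omega) le_rfl
    have h2 := h.inc x0 (x0 + K) (by omega) hx0
    have h3 : (1 : ℝ) ≤ (n (x0 + K) : ℝ) - n x0 := by
      have : (n x0 : ℝ) + 1 ≤ n (x0 + K) := by exact_mod_cast h2
      linarith
    exact (le_mul_of_one_le_left (logla_pos hu).le h3).trans h1
  have hF' : Real.log (la u') ≤ r + 2 * ρ + 2 := by
    have h1 := hdF' x0 (x0 + K) le_rfl (by omega) le_rfl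
    have h2 := h.inc' x0 (x0 + K) (by omega) hx0
    have h3 : (1 : ℝ) ≤ (n' (x0 + K) : ℝ) - n' x0 := by
      have : (n' x0 : ℝ) + 1 ≤ n' (x0 + K) := by exact_mod_cast h2
      linarith
    exact (le_mul_of_one_le_left (logla_pos hu').le h3).trans h1
  -- the data of the positions
  have hpos : ∀ x, x0 ≤ x → x ≤ x0 + K →
      PosD u A B (n x) (i x) (j x) u' A' B' (n' x) (i' x) (j' x) H (Q / 16) := by
    intro x h1 h2
    have hx : x ≤ N := by omega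
    have h3 := hrange x h1 h2
    have h4 := abs_le.mp (h.lev x hx)
    have h5 := abs_le.mp (h.lev' x hx)
    have h6 := abs_le.mp (h.near x hx)
    have h7 := h.s1 x hx
    exact posd (l := l x) (l' := l' x) (ρ := ρ) (Q := Q) (lN := l N) hu hu' (h.i1 x hx) (h.j1 x hx) (h.i1' x hx)
      (h.j1' x hx) (h.co x hx) (h.co' x hx) (h.iH x hx) (h.iH' x hx) (h.nH x hx) (h.nH' x hx) (h.lev x hx)
      (h.lev' x hx) (h.near x hx) (h.lin x hx) (h.gap x hx) (by linarith) (by linarith) (by linarith) (by linarith)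
      (by linarith) (by linarith)
  -- the conditions on the precision
  have hlH : 0 ≤ Real.log H := Real.log_nonneg (by linarith)
  have c1 : C0 * Real.log H ≤ Q / 16 := by
    have : C0 * Real.log H ≤ C0 * ρ := mul_le_mul_of_nonneg_left hHρ (by linarith)
    linarith
  have c4 : C0 * Real.log H ^ 4 ≤ Q / 16 := by
    have : C0 * Real.log H ^ 4 ≤ C0 * (ρ : ℝ) ^ 4 :=
      mul_le_mul_of_nonneg_left (pow_le_pow_left₀ hlH hHρ 4) (by linarith)
    linarith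
  have c2 : C0 * (r + 2 * ρ + 2) ≤ Q / 16 := by
    have : C0 * (r + 2 * ρ + 2) = r * (100 * C0) / 100 + 2 * (C0 * ρ) + 2 * C0 := by ring
    have : C0 ≤ C0 * ρ := le_mul_of_one_le_right (by linarith) (by linarith)
    linarith
  have c3 : C0 * (r + 2) ≤ Q / 16 := by
    have : C0 * (r + 2) ≤ C0 * (r + 2 * ρ + 2) := mul_le_mul_of_nonneg_left (by linarith) (by linarith)
    linarith
  have hc : ∀ C : ℝ, 1 ≤ C → C ≤ C0 → ∀ x y : ℝ, x ≤ y → 0 ≤ y → C0 * y ≤ Q / 16 → C * x ≤ Q / 16 := by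
    intro C h1 h2 x y h3 h4 h5
    have e1 : C * x ≤ C * y := mul_le_mul_of_nonneg_left h3 (by linarith)
    have e2 : C * y ≤ C0 * y := mul_le_mul_of_nonneg_right h2 h4
    linarith
  have hr2 : 0 ≤ r + 2 := by linarith
  have hr2' : 0 ≤ r + 2 * ρ + 2 := by linarith
  have hpair : ∀ a b, x0 ≤ a → a < b → b ≤ x0 + K →
      (∃ m : ℕ, (m : ℤ) ^ 2 = (9 * u ^ 2 - 4) * (9 * u' ^ 2 - 4)) ∧
      |((n b : ℝ) - n a) * Real.log (la u) - ((n' b : ℝ) - n' a) * Real.log (la u')| ≤ 2 * Real.log H + 1 := by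
    intro a b ha hab hb
    exact hP u A B u' A' B' (i a) (j a) (i b) (j b) (i' a) (j' a) (i' b) (j' b) (n a) (n b) (n' a) (n' b) H (Q / 16)
      hR hR' (h.inc a b hab (by omega)) (h.inc' a b hab (by omega)) hH
      (hc C1 hC1 (by linarith) _ _ le_rfl hlH c1) (hc C1 hC1 (by linarith) _ _ hF hr2 c3)
      (hc C1 hC1 (by linarith) _ _ hF' hr2' c2)
      (hc C1 hC1 (by linarith) _ _ (hdF a b ha hab.le hb) hr2 c3)
      (hc C1 hC1 (by linarith) _ _ (hdF' a b ha hab.le hb) hr2' c2)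
      (hpos a ha (by omega)) (hpos b (by omega) hb)
  -- pigeonhole
  set y : ℕ → ℝ := fun x => ((n x : ℝ) - n x0) * Real.log (la u) - ((n' x : ℝ) - n' x0) * Real.log (la u') with hy
  have hyb : ∀ x ∈ Finset.Icc x0 (x0 + K), ⌊2 * y x⌋ ∈ Finset.Icc (-(4 * (ρ : ℤ) + 3)) (4 * (ρ : ℤ) + 3) := by
    intro x hx
    rw [Finset.mem_Icc] at hx
    have h1 : |y x| ≤ 2 * ρ + 1 := by
      rcases Nat.eq_or_lt_of_le hx.1 with h2 | h2
      · rw [hy, ← h2]
        simp only [sub_self, zero_mul, abs_zero]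
        linarith
      · have := (hpair x0 x le_rfl h2 hx.2).2
        rw [hy]
        refine this.trans (by linarith)
    have h2 := abs_le.mp h1
    rw [Finset.mem_Icc]
    constructor
    · rw [Int.le_floor]
      push_cast
      linarith
    · have h3 : ⌊2 * y x⌋ < 4 * (ρ : ℤ) + 3 := by
        rw [Int.floor_lt]
        push_cast
        linarith
      exact h3.le
  have hcard : (Finset.Icc (-(4 * (ρ : ℤ) + 3)) (4 * (ρ : ℤ) + 3)).card < (Finset.Icc x0 (x0 + K)).card := by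
    rw [Int.card_Icc, Nat.card_Icc]
    have h1 : 64 * ρ ≤ K := by
      rw [hK, show ρ ^ 3 = ρ ^ 2 * ρ by ring]
      exact Nat.mul_le_mul_right _ (by nlinarith)
    omega
  obtain ⟨a, ha, b, hb, hab, hfl⟩ := Finset.exists_ne_map_eq_of_card_lt_of_maps_to hcard hyb
  have hfin : ∀ a b, a ∈ Finset.Icc x0 (x0 + K) → b ∈ Finset.Icc x0 (x0 + K) → a < b →
      ⌊2 * y a⌋ = ⌊2 * y b⌋ → ∃ x ≤ N, SameP u A B (n x) (i x) (j x) u' A' B' (n' x) (i' x) (j' x) := by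
    intro a b ha hb hab hfl
    rw [Finset.mem_Icc] at ha hb
    obtain ⟨⟨m, hm⟩, -⟩ := hpair a b ha.1 hab hb.2
    have hn1 := h.inc a b hab (by omega)
    have hn1' := h.inc' a b hab (by omega)
    have h1 := hU u u' (n b - n a) (n' b - n' a) m hu hu' hm
    rw [Nat.cast_sub hn1.le, Nat.cast_sub hn1'.le] at h1
    have h2 : |2 * y a - 2 * y b| < 1 := Int.abs_sub_lt_one_of_floor_eq_floor hfl
    have h3 : ((n b : ℝ) - n a) * Real.log (la u) = ((n' b : ℝ) - n' a) * Real.log (la u') := by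
      rcases h1 with h1 | h1
      · exact h1
      · exfalso
        have e : 2 * y a - 2 * y b = -2 * (((n b : ℝ) - n a) * Real.log (la u) -
            ((n' b : ℝ) - n' a) * Real.log (la u')) := by rw [hy]; ring
        rw [e, abs_mul] at h2
        norm_num at h2
        linarith
    rcases hT u A B u' A' B' (i a) (j a) (i b) (j b) (i' a) (j' a) (i' b) (j' b) (n a) (n b) (n' a) (n' b) H (Q / 16)
      hR hR' hn1 hn1' hH
      (hc C2 hC2 (by linarith) _ _ le_rfl hlH c1) (hc C2 hC2 (by linarith) _ _ hF hr2 c3)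
      (hc C2 hC2 (by linarith) _ _ hF' hr2' c2)
      (hc C2 hC2 (by linarith) _ _ (hdF a b ha.1 hab.le hb.2) hr2 c3)
      (hc C2 hC2 (by linarith) _ _ (hdF' a b ha.1 hab.le hb.2) hr2' c2)
      (hc C2 hC2 (by linarith) _ _ le_rfl (by positivity) c4)
      (hpos a ha.1 (by omega)) (hpos b (by omega) hb.2) h3 with h4 | h4
    · exact ⟨a, by omega, h4⟩
    · exact ⟨b, by omega, h4⟩
  rcases lt_or_gt_of_ne hab with h1 | h1
  · exact hfin a b ha hb h1 hfl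
  · exact hfin b a hb ha h1 hfl.symm

end

end Pool.Agent.N576.MX2
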