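import Mathlib
import Pool.Agent.N576.MX2.E
import Pool.Agent.N576.MX2.C3

set_option autoImplicit false

/-!
# Combs of two runs are short (helper576)
-/

namespace Pool.Agent.N576.MX2

open Pool.Agent.H499R2 Pool.Agent.TH880.MK Pool.Agent.N576.MK
open Pool.Agent.N576.MX (rn ofr piv pvs wv jj RUNREP UNIQ RUNX sz_app)

noncomputable section

lemma pt_cop (s : List Bool) : Nat.Coprime (pt s).1 (pt s).2 := by
  induction s with
  | nil => simp [pt]
  | cons b s ih =>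
    cases b
    · simp only [pt]
      rw [Nat.add_comm]
      exact (Nat.coprime_add_self_right).2 ih
    · simp only [pt]
      exact (Nat.coprime_add_self_left).2 ih

/-- the coordinates of a suffix -/
lemma ij_facts (c : Bool) (s : List Bool) : (1 : ℤ) ≤ (sz s : ℤ) - jj c s ∧ (1 : ℤ) ≤ (jj c s : ℤ) ∧
    IsCoprime ((sz s : ℤ) - jj c s) (jj c s : ℤ) := by
  obtain ⟨h1, h2⟩ := pt_pos s
  have h3 := pt_cop s
  have e : sz s = (pt s).1 + (pt s).2 := rfl
  cases c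
  · have e1 : jj false s = (pt s).2 := rfl
    have e2 : (sz s : ℤ) - jj false s = (pt s).1 := by rw [e, e1]; push_cast; ring
    rw [e2, e1]
    exact ⟨by exact_mod_cast h1, by exact_mod_cast h2, Nat.isCoprime_iff_coprime.2 h3⟩
  · have e1 : jj true s = (pt s).1 := rfl
    have e2 : (sz s : ℤ) - jj true s = (pt s).2 := by rw [e, e1]; push_cast; ring
    rw [e2, e1]
    exact ⟨by exact_mod_cast h2, by exact_mod_cast h1, Nat.isCoprime_iff_coprime.2 h3.symm⟩

lemma sz_suf (g : List Bool) (c : Bool) (m : ℕ) (s : List Bool) : sz s ≤ sz (ofr g c m s) := by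
  have h1 := sz_app (rn g c m ++ [!c]) s
  have h2 : 1 ≤ mm (rn g c m ++ [!c]) := by
    have hv := valid_root.desc (rn g c m ++ [!c])
    unfold mm
    have := hv.p1
    have := hv.q1
    omega
  have e : rn g c m ++ [!c] ++ s = ofr g c m s := by unfold ofr; simp
  rw [e] at h1
  exact (Nat.le_mul_of_pos_left _ h2).trans h1

lemma sz_run (g : List Bool) (c : Bool) (m : ℕ) (s : List Bool) : sz (rn g c m) ≤ sz (ofr g c m s) :=
  sz_prefix (List.prefix_append _ _)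

lemma exp_rho {H ρ : ℕ} (hs : (10 : ℝ) ^ 20 * ((4 * H : ℕ) : ℝ) ^ 20 ≤ 4 ^ ρ) :
    (10 : ℝ) ^ 16 * (H : ℝ) ^ 10 ≤ Real.exp ρ := by
  have h4 : (4 : ℝ) ≤ Real.exp 2 := by
    have := Real.add_one_le_exp (1 : ℝ)
    have h5 : Real.exp 2 = Real.exp 1 * Real.exp 1 := by rw [← Real.exp_add]; norm_num
    nlinarith [Real.exp_pos 1]
  have h2 : (4 : ℝ) ^ ρ ≤ (Real.exp ρ) ^ 2 := by
    calc (4 : ℝ) ^ ρ ≤ (Real.exp 2) ^ ρ := pow_le_pow_left₀ (by norm_num) h4 _
      _ = (Real.exp ρ) ^ 2 := by rw [← Real.exp_nat_mul, ← Real.exp_nat_mul]; congr 1; push_cast; ring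
  have h3 : ((10 : ℝ) ^ 10 * (4 * H) ^ 10) ^ 2 ≤ (Real.exp ρ) ^ 2 := by
    refine le_trans (le_of_eq ?_) (hs.trans h2)
    push_cast
    ring
  have h5 : (10 : ℝ) ^ 10 * (4 * H) ^ 10 ≤ Real.exp ρ := by
    exact (pow_le_pow_iff_left₀ (by positivity) (Real.exp_pos _).le (by norm_num)).1 h3
  have h6 : (10 : ℝ) ^ 10 * (4 * H) ^ 10 = (10 ^ 10 * 4 ^ 10) * (H : ℝ) ^ 10 := by ring
  rw [h6] at h5
  refine le_trans ?_ h5
  apply mul_le_mul_of_nonneg_right (by norm_num) (by positivity)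

lemma exp_two_le : Real.exp 2 ≤ 8 := by
  have h1 := Real.exp_one_lt_d9
  have h5 : Real.exp 2 = Real.exp 1 * Real.exp 1 := by rw [← Real.exp_add]; norm_num
  rw [h5]
  nlinarith [Real.exp_pos 1]

/-- one side -/
lemma side {u A B : ℤ} (hR : RunD u A B) {n H : ℕ} {i j : ℤ} {V l : ℝ} (hn : 1 ≤ n) (i1 : 1 ≤ i) (j1 : 1 ≤ j)
    (hij : (i : ℝ) + j ≤ H) (hl : |l - (tt u A B n + Real.log (la u))| ≤ 1)
    (hV : |V - (LL u A B n i j + GG u A B n i j)| ≤
      10 ^ 4 * H * Real.exp (-4 * tt u A B n - 2 * Real.log (la u))) :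
    |V - LL u A B n i j| ≤ 10 ^ 5 * H * Real.exp (-2 * l) := by
  have hu : 1 ≤ u := by obtain ⟨a, b, -⟩ := hR; omega
  have ht := tt_nonneg hR hn
  have hG1 := GG_le (A := A) (B := B) (n := n) hu i1 j1
  have hG2 := GG_ge (A := A) (B := B) (n := n) hu i1 j1
  obtain ⟨l1, l2⟩ := abs_le.mp hl
  set t := tt u A B n
  set F := Real.log (la u)
  set G := GG u A B n i j
  set L := LL u A B n i j
  have hG0 : 0 ≤ G := le_trans (by positivity) hG2
  have hH0 : (0 : ℝ) ≤ H := Nat.cast_nonneg _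
  have e1 : Real.exp (-4 * t - 2 * F) ≤ Real.exp (-2 * (t + F)) := Real.exp_le_exp.2 (by linarith)
  have e2 : Real.exp (-2 * (t + F)) ≤ 8 * Real.exp (-2 * l) := by
    calc Real.exp (-2 * (t + F)) ≤ Real.exp (2 + -2 * l) := Real.exp_le_exp.2 (by linarith)
      _ = Real.exp 2 * Real.exp (-2 * l) := Real.exp_add _ _
      _ ≤ 8 * Real.exp (-2 * l) := mul_le_mul_of_nonneg_right exp_two_le (Real.exp_pos _).le
  have e3 : |V - L| ≤ |V - (L + G)| + G := by
    have := abs_add_le (V - (L + G)) G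
    rw [show V - (L + G) + G = V - L by ring, abs_of_nonneg hG0] at this
    exact this
  have e4 : G ≤ 8 * H * Real.exp (-2 * (t + F)) := by
    refine hG1.trans ?_
    apply mul_le_mul_of_nonneg_right _ (Real.exp_pos _).le
    linarith
  have e5 : 10 ^ 4 * (H : ℝ) * Real.exp (-4 * t - 2 * F) ≤ 10 ^ 4 * H * Real.exp (-2 * (t + F)) :=
    mul_le_mul_of_nonneg_left e1 (by positivity)
  have e6 : (10 ^ 4 + 8) * (H : ℝ) * Real.exp (-2 * (t + F)) ≤ (10 ^ 4 + 8) * H * (8 * Real.exp (-2 * l)) :=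
    mul_le_mul_of_nonneg_left e2 (by positivity)
  have e7 : 0 ≤ (H : ℝ) * Real.exp (-2 * l) := by positivity
  nlinarith

end

end Pool.Agent.N576.MX2
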