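import Mathlib
import Pool.Agent.N576.MX2.C4

set_option autoImplicit false

/-!
# Combs of two runs are short: the main argument (helper576)
-/

namespace Pool.Agent.N576.MX2

open Pool.Agent.H499R2 Pool.Agent.TH880.MK Pool.Agent.N576.MK
open Pool.Agent.N576.MX (rn ofr piv pvs wv jj RUNREP UNIQ RUNX sz_app)

noncomputable section

/-- the same data lead to the same word -/
lemma same_word (hS : SAMEW) {g g' : List Bool} {c c' : Bool} {A B A' B' : ℤ} {k k' m m' : ℕ} {s s' : List Bool}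
    (h1 : ∀ m : ℕ, 3 * (wv g c m : ℝ) = Real.exp (tt (piv g c) A B (m + k)) +
      9 * (piv g c : ℝ) ^ 2 / De (piv g c) * Real.exp (-tt (piv g c) A B (m + k)))
    (h1' : ∀ m : ℕ, 3 * (wv g' c' m : ℝ) = Real.exp (tt (piv g' c') A' B' (m + k')) +
      9 * (piv g' c' : ℝ) ^ 2 / De (piv g' c') * Real.exp (-tt (piv g' c') A' B' (m + k')))
    (h : SameP (piv g c) A B (m + k) ((sz s : ℤ) - jj c s) (jj c s) (piv g' c') A' B' (m' + k')
      ((sz s' : ℤ) - jj c' s') (jj c' s')) : ofr g c m s = ofr g' c' m' s' := by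
  obtain ⟨hu, hi, hj, ht⟩ := h
  have hj' : jj c s = jj c' s' := by exact_mod_cast hj
  have hsz : sz s = sz s' := by
    have : (sz s : ℤ) = sz s' := by linarith
    exact_mod_cast this
  have ht2 : tt (piv g c) A B (m + 1 + k) = tt (piv g' c') A' B' (m' + 1 + k') := by
    unfold tt at ht ⊢
    rw [hu] at ht ⊢
    push_cast at ht ⊢
    linarith
  apply hS g g' c c' m m' s s' hu _ _ hj' hsz
  · have e1 := h1 m
    have e2 := h1' m'
    rw [ht, hu, ← e2] at e1
    have : (wv g c m : ℝ) = wv g' c' m' := by linarith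
    exact_mod_cast this
  · have e1 := h1 (m + 1)
    have e2 := h1' (m' + 1)
    rw [ht2, hu, ← e2] at e1
    have : (wv g c (m + 1) : ℝ) = wv g' c' (m' + 1) := by linarith
    exact_mod_cast this

/-- **Combs of two runs are short.** -/
theorem comb0_of (hX : POSX) (hL : LINALG) (hG : GROUP) (hP : PAIRX) (hU : UNITSEP) (hT : TWOPOS) (hS : SAMEW) :
    COMB0 := by
  classical
  obtain ⟨C1, hC1, hD⟩ := dense hP hU hT hG
  refine ⟨10 * C1, by positivity, ?_⟩
  intro H ρ g g' c c' T τ s s' σ hH hρ hs hm hsp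
  obtain ⟨A, B, k, hR, x1, x2, x3, x4⟩ := hX g c
  obtain ⟨A', B', k', hR', x1', x2', x3', x4'⟩ := hX g' c'
  have hH2 : (2 : ℝ) ≤ H := by exact_mod_cast hH
  have hE := exp_rho hs
  have hH10 : (H : ℝ) ≤ (H : ℝ) ^ 10 := le_self_pow₀ (by linarith) (by norm_num)
  have hEH : (10 : ℝ) ^ 16 * H ≤ Real.exp ρ := by
    refine le_trans ?_ hE
    exact mul_le_mul_of_nonneg_left hH10 (by positivity)
  have hρ8 : 8 ≤ ρ := by
    by_contra hcon
    push Not at hcon
    have h1 : (4 : ℝ) ^ ρ ≤ 4 ^ 7 := pow_le_pow_right₀ (by norm_num) (by omega)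
    have h2 : (1 : ℝ) ≤ ((4 * H : ℕ) : ℝ) ^ 20 := one_le_pow₀ (by exact_mod_cast (by omega : 1 ≤ 4 * H))
    have h3 : (10 : ℝ) ^ 20 * 1 ≤ 10 ^ 20 * ((4 * H : ℕ) : ℝ) ^ 20 := mul_le_mul_of_nonneg_left h2 (by positivity)
    norm_num at h1 h3
    linarith
  have hρr : (8 : ℝ) ≤ ρ := by exact_mod_cast hρ8
  set u := piv g c with hu
  set u' := piv g' c' with hu'
  -- the enumeration
  obtain ⟨e, he⟩ : ∃ e : ℕ → ℕ, e = fun x => if h : x < T.card then T.orderEmbOfFin rfl ⟨x, h⟩ else 0 := ⟨_, rfl⟩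
  have eT : ∀ x, x < T.card → e x ∈ T := by
    intro x hx
    rw [he]
    simp only [hx, dif_pos]
    exact Finset.orderEmbOfFin_mem _ _ _
  have elt : ∀ x y, x < y → y < T.card → e x < e y := by
    intro x y hxy hy
    rw [he]
    have hx : x < T.card := by omega
    simp only [hx, hy, dif_pos]
    exact (T.orderEmbOfFin rfl).strictMono hxy
  -- facts about one position
  have hpos : ∀ m ∈ T, |LL u A B (m + k) ((sz (s m) : ℤ) - jj c (s m)) (jj c (s m)) -
      LL u' A' B' (τ m + k') ((sz (s' m) : ℤ) - jj c' (s' m)) (jj c' (s' m))| ≤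
      2 * 10 ^ 5 * H * Real.exp (2 * ρ) * Real.exp (-2 * FF (rn g c m)) := by
    intro m hmT
    obtain ⟨a1, a2, a3, a4, a5, a6, a7, a8, a9⟩ := hm m hmT
    obtain ⟨i1, j1, -⟩ := ij_facts c (s m)
    obtain ⟨i1', j1', -⟩ := ij_facts c' (s' m)
    have b1 := sz_suf g c m (s m)
    have b2 := sz_suf g' c' (τ m) (s' m)
    have c1 : ((((sz (s m) : ℤ) - jj c (s m) : ℤ) : ℝ)) + ((jj c (s m) : ℤ) : ℝ) ≤ H := by
      push_cast
      have : (sz (s m) : ℝ) ≤ H := by exact_mod_cast b1.trans a3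
      linarith
    have c2 : ((((sz (s' m) : ℤ) - jj c' (s' m) : ℤ) : ℝ)) + ((jj c' (s' m) : ℤ) : ℝ) ≤ H := by
      push_cast
      have : (sz (s' m) : ℝ) ≤ H := by exact_mod_cast b2.trans a4
      linarith
    have d1 := side (H := H) hR (by omega : 1 ≤ m + k) i1 j1 c1 (x2 m) (x4 H m (s m) a1 a3)
    have d2 := side (H := H) hR' (by omega : 1 ≤ τ m + k') i1' j1' c2 (x2' (τ m)) (x4' H (τ m) (s' m) a2 a4)
    rw [a5] at d1
    have d3 := abs_sub (FF (ofr g' c' (τ m) (s' m)) -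
      LL u' A' B' (τ m + k') ((sz (s' m) : ℤ) - jj c' (s' m)) (jj c' (s' m))) (FF (ofr g' c' (τ m) (s' m)) -
      LL u A B (m + k) ((sz (s m) : ℤ) - jj c (s m)) (jj c (s m)))
    have e1 : (FF (ofr g' c' (τ m) (s' m)) -
      LL u' A' B' (τ m + k') ((sz (s' m) : ℤ) - jj c' (s' m)) (jj c' (s' m))) - (FF (ofr g' c' (τ m) (s' m)) -
      LL u A B (m + k) ((sz (s m) : ℤ) - jj c (s m)) (jj c (s m))) =
      LL u A B (m + k) ((sz (s m) : ℤ) - jj c (s m)) (jj c (s m)) -
      LL u' A' B' (τ m + k') ((sz (s' m) : ℤ) - jj c' (s' m)) (jj c' (s' m)) := by ring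
    rw [e1] at d3
    have e2 : Real.exp (-2 * FF (rn g' c' (τ m))) ≤ Real.exp (2 * ρ) * Real.exp (-2 * FF (rn g c m)) := by
      rw [← Real.exp_add]
      apply Real.exp_le_exp.2
      have := abs_le.mp a7
      linarith
    have e3 : Real.exp (-2 * FF (rn g c m)) ≤ Real.exp (2 * ρ) * Real.exp (-2 * FF (rn g c m)) :=
      le_mul_of_one_le_left (Real.exp_pos _).le (Real.one_le_exp (by linarith))
    have e4 := mul_le_mul_of_nonneg_left e2 (show (0 : ℝ) ≤ 10 ^ 5 * H by positivity)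
    have e5 := mul_le_mul_of_nonneg_left e3 (show (0 : ℝ) ≤ 10 ^ 5 * H by positivity)
    linarith
  rcases Nat.eq_zero_or_pos T.card with h0 | hTpos
  · rw [h0]; simp only [Nat.cast_zero]; positivity
  -- the stretch
  obtain ⟨v, hv⟩ : ∃ v : ℕ → Fin 4 → ℤ, v = fun x => ![(sz (s (e x)) : ℤ),
      (sz (s (e x)) : ℤ) * ((e x + k : ℕ) : ℤ) + jj c (s (e x)), (sz (s' (e x)) : ℤ),
      (sz (s' (e x)) : ℤ) * ((τ (e x) + k' : ℕ) : ℤ) + jj c' (s' (e x))] := ⟨_, rfl⟩
  obtain ⟨w, hw⟩ : ∃ w : Fin 4 → ℝ, w = ![Real.log (X0 u A B), Real.log (la u), -Real.log (X0 u' A' B'),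
      -Real.log (la u')] := ⟨_, rfl⟩
  have hwv : ∀ x, ∑ q, w q * v x q = LL u A B (e x + k) ((sz (s (e x)) : ℤ) - jj c (s (e x))) (jj c (s (e x))) -
      LL u' A' B' (τ (e x) + k') ((sz (s' (e x)) : ℤ) - jj c' (s' (e x))) (jj c' (s' (e x))) := by
    intro x
    rw [Fin.sum_univ_four, hv, hw]
    simp only [Matrix.cons_val_zero, Matrix.cons_val_one, Matrix.cons_val]
    unfold LL tt
    push_cast
    ring
  have hbd : ∀ x, x < T.card → ∀ q, |(v x q : ℝ)| ≤ 11 * (H : ℝ) ^ 2 := by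
    intro x hx
    obtain ⟨a1, a2, a3, a4, -⟩ := hm (e x) (eT x hx)
    obtain ⟨i1, j1, -⟩ := ij_facts c (s (e x))
    obtain ⟨i1', j1', -⟩ := ij_facts c' (s' (e x))
    have b1 : (sz (s (e x)) : ℝ) ≤ H := by exact_mod_cast (sz_suf g c (e x) (s (e x))).trans a3
    have b2 : (sz (s' (e x)) : ℝ) ≤ H := by exact_mod_cast (sz_suf g' c' (τ (e x)) (s' (e x))).trans a4
    have b3 : ((e x + k : ℕ) : ℝ) ≤ 10 * H := by
      have h1 := x3 (e x)
      have h2 := (sz_run g c (e x) (s (e x))).trans a3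
      exact_mod_cast (by omega : e x + k ≤ 10 * H)
    have b4 : ((τ (e x) + k' : ℕ) : ℝ) ≤ 10 * H := by
      have h1 := x3' (τ (e x))
      have h2 := (sz_run g' c' (τ (e x)) (s' (e x))).trans a4
      exact_mod_cast (by omega : τ (e x) + k' ≤ 10 * H)
    have b5 : (jj c (s (e x)) : ℝ) ≤ H := by
      have : (jj c (s (e x)) : ℤ) ≤ sz (s (e x)) := by linarith
      have h2 : (jj c (s (e x)) : ℝ) ≤ sz (s (e x)) := by exact_mod_cast this
      linarith
    have b6 : (jj c' (s' (e x)) : ℝ) ≤ H := by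
      have : (jj c' (s' (e x)) : ℤ) ≤ sz (s' (e x)) := by linarith
      have h2 : (jj c' (s' (e x)) : ℝ) ≤ sz (s' (e x)) := by exact_mod_cast this
      linarith
    have hHH : (H : ℝ) ≤ H ^ 2 := by nlinarith
    have p1 : (sz (s (e x)) : ℝ) * ((e x + k : ℕ) : ℝ) ≤ 10 * (H : ℝ) ^ 2 := by
      calc (sz (s (e x)) : ℝ) * ((e x + k : ℕ) : ℝ) ≤ H * (10 * H) :=
            mul_le_mul b1 b3 (Nat.cast_nonneg _) (by linarith)
        _ = 10 * (H : ℝ) ^ 2 := by ring
    have p2 : (sz (s' (e x)) : ℝ) * ((τ (e x) + k' : ℕ) : ℝ) ≤ 10 * (H : ℝ) ^ 2 := by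
      calc (sz (s' (e x)) : ℝ) * ((τ (e x) + k' : ℕ) : ℝ) ≤ H * (10 * H) :=
            mul_le_mul b2 b4 (Nat.cast_nonneg _) (by linarith)
        _ = 10 * (H : ℝ) ^ 2 := by ring
    have q0 : (0 : ℝ) ≤ (sz (s (e x)) : ℝ) * ((e x + k : ℕ) : ℝ) := by positivity
    have q1 : (0 : ℝ) ≤ (sz (s' (e x)) : ℝ) * ((τ (e x) + k' : ℕ) : ℝ) := by positivity
    have q2 : (0 : ℝ) ≤ (jj c (s (e x)) : ℝ) := Nat.cast_nonneg _
    have q3 : (0 : ℝ) ≤ (jj c' (s' (e x)) : ℝ) := Nat.cast_nonneg _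
    intro q
    rw [hv]
    fin_cases q
    · show |(((sz (s (e x)) : ℤ)) : ℝ)| ≤ _
      rw [Int.cast_natCast, abs_of_nonneg (Nat.cast_nonneg _)]
      linarith
    · show |(((sz (s (e x)) : ℤ) * ((e x + k : ℕ) : ℤ) + jj c (s (e x)) : ℤ) : ℝ)| ≤ _
      rw [Int.cast_add, Int.cast_mul, Int.cast_natCast, Int.cast_natCast, Int.cast_natCast,
        abs_of_nonneg (by linarith)]
      linarith
    · show |(((sz (s' (e x)) : ℤ)) : ℝ)| ≤ _
      rw [Int.cast_natCast, abs_of_nonneg (Nat.cast_nonneg _)]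
      linarith
    · show |(((sz (s' (e x)) : ℤ) * ((τ (e x) + k' : ℕ) : ℤ) + jj c' (s' (e x)) : ℤ) : ℝ)| ≤ _
      rw [Int.cast_add, Int.cast_mul, Int.cast_natCast, Int.cast_natCast, Int.cast_natCast,
        abs_of_nonneg (by linarith)]
      linarith
  have hmono : ∀ x y, x ≤ y → y < T.card → FF (rn g c (e x)) ≤ FF (rn g c (e y)) := by
    intro x y hxy hy
    rcases Nat.eq_or_lt_of_le hxy with h1 | h1
    · rw [h1]
    · have := (hsp (e x) (eT x (by omega)) (e y) (eT y hy) (elt x y h1 hy)).2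
      have : (0 : ℝ) ≤ ρ := Nat.cast_nonneg _
      linarith
  obtain ⟨a, b, hab, hbT, hcard, hst⟩ := hL T.card v w
    (fun x => 2 * 10 ^ 5 * H * Real.exp (2 * ρ) * Real.exp (-2 * FF (rn g c (e x)))) (11 * (H : ℝ) ^ 2)
    (by nlinarith) (fun x q hx => hbd x hx q) (fun x y hxy hy => by
      apply mul_le_mul_of_nonneg_left _ (by positivity)
      apply Real.exp_le_exp.2
      have := hmono x y hxy hy
      linarith) (fun x hx => by positivity) (fun x hx => by rw [hwv]; exact hpos (e x) (eT x hx)) hTpos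
  have hlin : ∀ x, a ≤ x → x ≤ b → |∑ q, w q * v x q| ≤ Real.exp (3 * ρ - 2 * FF (rn g c (e b))) := by
    intro x hx1 hx2
    refine (hst x hx1 hx2).trans ?_
    have e1 : Real.exp (3 * ρ - 2 * FF (rn g c (e b))) =
        Real.exp ρ * (Real.exp (2 * ρ) * Real.exp (-2 * FF (rn g c (e b)))) := by
      rw [← Real.exp_add, ← Real.exp_add]; ring_nf
    rw [e1]
    have e2 : 96 * (11 * (H : ℝ) ^ 2) ^ 4 * (2 * 10 ^ 5 * H * Real.exp (2 * ρ) * Real.exp (-2 * FF (rn g c (e b)))) =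
        (96 * 11 ^ 4 * 2 * 10 ^ 5 * (H : ℝ) ^ 9) * (Real.exp (2 * ρ) * Real.exp (-2 * FF (rn g c (e b)))) := by ring
    rw [e2]
    apply mul_le_mul_of_nonneg_right _ (by positivity)
    have e3 : (H : ℝ) ^ 9 ≤ H ^ 10 := pow_le_pow_right₀ (by linarith) (by norm_num)
    refine le_trans ?_ hE
    calc 96 * 11 ^ 4 * 2 * 10 ^ 5 * (H : ℝ) ^ 9 ≤ 10 ^ 16 * (H : ℝ) ^ 9 :=
          mul_le_mul_of_nonneg_right (by norm_num) (by positivity)
      _ ≤ 10 ^ 16 * (H : ℝ) ^ 10 := mul_le_mul_of_nonneg_left e3 (by positivity)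
  -- the dense group
  by_contra hcon
  push Not at hcon
  have hρ45 : (ρ : ℝ) ^ 4 ≤ ρ ^ 5 := pow_le_pow_right₀ (by linarith) (by norm_num)
  have hρ1 : (1 : ℝ) ≤ (ρ : ℝ) ^ 4 := one_le_pow₀ (by linarith)
  have hN : C1 * (ρ : ℝ) ^ 4 ≤ ((b - a : ℕ) : ℝ) := by
    rw [Nat.cast_sub hab]
    have h1 : (T.card : ℝ) ≤ 5 * ((b : ℝ) + 1 - a) := by
      have h2 : ((b + 1 - a : ℕ) : ℝ) = (b : ℝ) + 1 - a := by
        rw [Nat.cast_sub (by omega)]; push_cast; ring
      rw [← h2]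
      exact_mod_cast hcard
    have h3 : C1 * 1 ≤ C1 * (ρ : ℝ) ^ 4 := mul_le_mul_of_nonneg_left hρ1 (by linarith)
    have h4 : C1 * (ρ : ℝ) ^ 4 ≤ C1 * (ρ : ℝ) ^ 5 := mul_le_mul_of_nonneg_left hρ45 (by linarith)
    linarith
  have hin : ∀ x ≤ b - a, e (a + x) ∈ T := fun x hx => eT _ (by omega)
  obtain ⟨x, hx, hsame⟩ := hD u A B u' A' B' (b - a) (fun x => e (a + x) + k) (fun x => τ (e (a + x)) + k')
    (fun x => (sz (s (e (a + x))) : ℤ) - jj c (s (e (a + x)))) (fun x => jj c (s (e (a + x))))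
    (fun x => (sz (s' (e (a + x))) : ℤ) - jj c' (s' (e (a + x)))) (fun x => jj c' (s' (e (a + x))))
    (fun x => FF (rn g c (e (a + x)))) (fun x => FF (rn g' c' (τ (e (a + x))))) (10 * H) σ ρ hR hR'
    { i1 := fun x hx => (ij_facts c _).1
      j1 := fun x hx => (ij_facts c _).2.1
      i1' := fun x hx => (ij_facts c' _).1
      j1' := fun x hx => (ij_facts c' _).2.1
      co := fun x hx => (ij_facts c _).2.2
      co' := fun x hx => (ij_facts c' _).2.2
      iH := fun x hx => by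
        obtain ⟨a1, a2, a3, a4, -⟩ := hm _ (hin x hx)
        have b1 : (sz (s (e (a + x))) : ℝ) ≤ H := by exact_mod_cast (sz_suf g c _ (s (e (a + x)))).trans a3
        push_cast
        linarith
      iH' := fun x hx => by
        obtain ⟨a1, a2, a3, a4, -⟩ := hm _ (hin x hx)
        have b1 : (sz (s' (e (a + x))) : ℝ) ≤ H := by exact_mod_cast (sz_suf g' c' _ (s' (e (a + x)))).trans a4
        push_cast
        linarith
      nH := fun x hx => by
        obtain ⟨a1, a2, a3, a4, -⟩ := hm _ (hin x hx)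
        have h1 := x3 (e (a + x))
        have h2 := (sz_run g c _ (s (e (a + x)))).trans a3
        exact_mod_cast (by omega : e (a + x) + k ≤ 10 * H)
      nH' := fun x hx => by
        obtain ⟨a1, a2, a3, a4, -⟩ := hm _ (hin x hx)
        have h1 := x3' (τ (e (a + x)))
        have h2 := (sz_run g' c' _ (s' (e (a + x)))).trans a4
        exact_mod_cast (by omega : τ (e (a + x)) + k' ≤ 10 * H)
      lev := fun x hx => x2 _
      lev' := fun x hx => x2' _
      near := fun x hx => (hm _ (hin x hx)).2.2.2.2.2.2.1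
      inc := fun x y hxy hy => by
        have := elt (a + x) (a + y) (by omega) (by omega)
        show e (a + x) + k < e (a + y) + k
        omega
      inc' := fun x y hxy hy => by
        have := (hsp _ (hin x (by omega)) _ (hin y hy) (elt (a + x) (a + y) (by omega) (by omega))).1
        show τ (e (a + x)) + k' < τ (e (a + y)) + k'
        omega
      spread := fun x hx => (hsp _ (hin x hx.le) _ (hin (x + 1) hx) (elt (a + x) (a + (x + 1)) (by omega) (by omega))).2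
      s1 := fun x hx => (hm _ (hin x hx)).2.2.2.2.2.2.2.1
      s8 := fun x hx => (hm _ (hin x hx)).2.2.2.2.2.2.2.2
      lin := fun x hx => by
        have h1 := hlin (a + x) (by omega) (by omega)
        rw [hwv] at h1
        rw [show a + (b - a) = b by omega]
        exact h1
      gap := fun x hx => by
        obtain ⟨a1, a2, a3, a4, a5, -⟩ := hm _ (hin x hx)
        have d1 := x4 H _ _ a1 a3
        have d2 := x4' H _ _ a2 a4
        rw [a5] at d1
        have d3 := abs_sub_le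
          (LL u A B (e (a + x) + k) ((sz (s (e (a + x))) : ℤ) - jj c (s (e (a + x)))) (jj c (s (e (a + x)))) +
            GG u A B (e (a + x) + k) ((sz (s (e (a + x))) : ℤ) - jj c (s (e (a + x)))) (jj c (s (e (a + x)))))
          (FF (ofr g' c' (τ (e (a + x))) (s' (e (a + x)))))
          (LL u' A' B' (τ (e (a + x)) + k') ((sz (s' (e (a + x))) : ℤ) - jj c' (s' (e (a + x))))
            (jj c' (s' (e (a + x)))) + GG u' A' B' (τ (e (a + x)) + k') ((sz (s' (e (a + x))) : ℤ) -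
            jj c' (s' (e (a + x)))) (jj c' (s' (e (a + x)))))
        rw [abs_sub_comm] at d1
        refine d3.trans ((add_le_add d1 d2).trans ?_)
        have e1 : (10 : ℝ) ^ 4 * H ≤ Real.exp ρ := by nlinarith
        exact add_le_add (mul_le_mul_of_nonneg_right e1 (Real.exp_pos _).le)
          (mul_le_mul_of_nonneg_right e1 (Real.exp_pos _).le) }
    hρ8 (by linarith) (by
      rw [← Real.log_exp (ρ : ℝ)]
      exact Real.log_le_log (by positivity) (by nlinarith)) (by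
      obtain ⟨a1, a2, a3, -⟩ := hm _ (hin (b - a) le_rfl)
      have h1 := (FF_size (rn g c (e (a + (b - a))))).2
      have h2 : (sz (rn g c (e (a + (b - a)))) : ℝ) ≤ H := by
        exact_mod_cast (sz_run g c _ (s (e (a + (b - a))))).trans a3
      show FF (rn g c (e (a + (b - a)))) ≤ _
      nlinarith) hN
  exact (hm _ (hin x hx)).2.2.2.2.2.1 (same_word hS x1 x1' hsame)

end

end Pool.Agent.N576.MX2
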