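import Mathlib
import Pool.Agent.N576.MX.K7
import Pool.Agent.N576.MX2.E

set_option autoImplicit false

/-!
# From words to triples
-/

namespace Pool.Agent.N576.MX2

open Pool.Agent.H499R2 Pool.Agent.TH880.MK Pool.Agent.N576.MK
open Pool.Agent.N576.MX (Exc)

noncomputable section

/-- the number of triples which violate uniqueness -/
theorem bad_eps (h : FINALX) (ε : ℝ) (hε : 0 < ε) : ∃ C : ℝ, 0 < C ∧ ∀ N : ℕ, 3 ≤ N →
    ((ST N N).ncard : ℝ) ≤ C * (Real.log N) ^ ε := by
  classical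
  obtain ⟨C, hC, h⟩ := h ε hε
  refine ⟨C * 4 ^ ε, by positivity, fun N hN => ?_⟩
  obtain ⟨l1, l2, l3, l4⟩ := log_facts hN
  have hfin : (ST N N).Finite := (AT_finite N N).subset fun t ht => ⟨ht.1, ht.2.1, ht.2.2.1⟩
  have hch : ∀ t ∈ ST N N, ∃ l, Ph (desc root l) = ((t.1 : ℤ), (t.2.1 : ℤ), (t.2.2 : ℤ)) ∧
      Exc ⌊2 * Real.log (3 * N)⌋₊ l := by
    rintro ⟨a, b, m⟩ ⟨h1, h2, h3, a', b', h4, h5⟩
    simp only at h1 h2 h3 h4 h5 ⊢
    have hex : Ex m := by
      refine ⟨(a, b), (a', b'), h4.symm, ?_, ?_⟩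
      · exact ⟨h1.1, h1.2.1, h1.2.2.1, h1.2.2.2⟩
      · exact ⟨h5.1, h5.2.1, h5.2.2.1, h5.2.2.2⟩
    have hm5 := Ex_five hex (by have := h1.1; have := h1.2.1; have := h1.2.2.1; omega)
    obtain ⟨l, hl⟩ := MT_word h1 hm5
    obtain ⟨l', hl'⟩ := MT_word h5 hm5
    have hc : (desc root l).c = m := congrArg (fun z => z.2.2) hl
    have hc' : (desc root l').c = m := congrArg (fun z => z.2.2) hl'
    refine ⟨l, hl, sz_of_c hN (by rw [hc]; exact_mod_cast h3), l', sz_of_c hN (by rw [hc']; exact_mod_cast h3), ?_,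
      FF_of_c (by rw [hc, hc'])⟩
    rintro rfl
    rw [hl] at hl'
    simp only [Prod.mk.injEq, Nat.cast_inj] at hl'
    exact h4 (Prod.ext hl'.1.symm hl'.2.1.symm)
  choose! f hf1 hf2 using hch
  have hinj : Set.InjOn f (hfin.toFinset : Set (ℕ × ℕ × ℕ)) := by
    intro t ht t' ht' he
    rw [Set.Finite.coe_toFinset] at ht ht'
    have e1 := hf1 t ht
    have e2 := hf1 t' ht'
    rw [he, e2] at e1
    simp only [Prod.mk.injEq, Nat.cast_inj] at e1
    exact Prod.ext e1.1.symm (Prod.ext e1.2.1.symm e1.2.2.symm)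
  have key := h ⌊2 * Real.log (3 * N)⌋₊ (hfin.toFinset.image f) l3 (by
    intro l hl
    obtain ⟨t, ht, rfl⟩ := Finset.mem_image.mp hl
    rw [Set.Finite.mem_toFinset] at ht
    exact hf2 t ht)
  rw [Finset.card_image_of_injOn hinj] at key
  rw [Set.ncard_eq_toFinset_card _ hfin]
  refine key.trans ?_
  have h5 : ((⌊2 * Real.log (3 * N)⌋₊ : ℕ) : ℝ) ^ ε ≤ 4 ^ ε * (Real.log N) ^ ε := by
    rw [← Real.mul_rpow (by norm_num) (by linarith)]
    exact Real.rpow_le_rpow (Nat.cast_nonneg _) l4 hε.le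
  calc C * ((⌊2 * Real.log (3 * N)⌋₊ : ℕ) : ℝ) ^ ε
      ≤ C * (4 ^ ε * (Real.log N) ^ ε) := mul_le_mul_of_nonneg_left h5 hC.le
    _ = _ := by ring

/-- the first `m` letters of an infinite word -/
def pre (P : ℕ → Bool) (m : ℕ) : List Bool := (List.range m).map P

lemma pre_succ (P : ℕ → Bool) (m : ℕ) : pre P (m + 1) = pre P m ++ [P m] := by
  unfold pre
  rw [List.range_succ, List.map_append]
  rfl

lemma pre_length (P : ℕ → Bool) (m : ℕ) : (pre P m).length = m := by
  unfold pre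
  simp

lemma pre_prefix (P : ℕ → Bool) {m n : ℕ} (h : m ≤ n) : pre P m <+: pre P n := by
  induction n, h using Nat.le_induction with
  | base => exact List.prefix_rfl
  | succ n _ ih => rw [pre_succ]; exact ih.trans (List.prefix_append _ _)

lemma pre_take (P : ℕ → Bool) {m n : ℕ} (h : m ≤ n) : (pre P n).take m = pre P m := by
  have h1 := pre_prefix P h
  rw [List.prefix_iff_eq_take, pre_length] at h1
  exact h1.symm

/-- the side branches of a path -/
theorem side_branches (h : PATH0) : ∃ (C : ℝ) (K : ℕ), 0 < C ∧ ∀ (P : ℕ → Bool) (N : ℕ), 16 ≤ N →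
    {m : ℕ | ∃ w l' : List Bool, l' ≠ pre P m ++ (!(P m)) :: w ∧
      (desc root l').c = (desc root (pre P m ++ (!(P m)) :: w)).c ∧
      (desc root (pre P m ++ (!(P m)) :: w)).c ≤ N}.Finite ∧
    ({m : ℕ | ∃ w l' : List Bool, l' ≠ pre P m ++ (!(P m)) :: w ∧
      (desc root l').c = (desc root (pre P m ++ (!(P m)) :: w)).c ∧
      (desc root (pre P m ++ (!(P m)) :: w)).c ≤ N}.ncard : ℝ) ≤ C * (Real.log (Real.log N)) ^ K := by
  classical
  obtain ⟨C, n, hC, h⟩ := h
  refine ⟨C * 7 ^ n, n, by positivity, fun P N hN => ?_⟩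
  have hN3 : 3 ≤ N := by omega
  obtain ⟨l1, l2, l3, l4⟩ := log_facts hN3
  set H := ⌊2 * Real.log (3 * N)⌋₊ with hH
  set S := {m : ℕ | ∃ w l' : List Bool, l' ≠ pre P m ++ (!(P m)) :: w ∧
      (desc root l').c = (desc root (pre P m ++ (!(P m)) :: w)).c ∧
      (desc root (pre P m ++ (!(P m)) :: w)).c ≤ N} with hS
  have hsz : ∀ m ∈ S, ∃ w l' : List Bool, sz (pre P m ++ (!(P m)) :: w) ≤ H ∧ sz l' ≤ H ∧
      l' ≠ pre P m ++ (!(P m)) :: w ∧ FF l' = FF (pre P m ++ (!(P m)) :: w) := by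
    rintro m ⟨w, l', h1, h2, h3⟩
    exact ⟨w, l', sz_of_c hN3 h3, sz_of_c hN3 (by rw [h2]; exact h3), h1, FF_of_c h2⟩
  have hlt : ∀ m ∈ S, m < H := by
    intro m hm
    obtain ⟨w, l', h1, -⟩ := hsz m hm
    have h2 := len_sz (pre P m ++ (!(P m)) :: w)
    rw [List.length_append, pre_length, List.length_cons] at h2
    omega
  have hfin : S.Finite := (Finset.range H).finite_toSet.subset fun m hm => by
    rw [Finset.mem_coe, Finset.mem_range]
    exact hlt m hm
  refine ⟨hfin, ?_⟩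
  rw [Set.ncard_eq_toFinset_card _ hfin]
  rcases Nat.lt_or_ge H 2 with hH2 | hH2
  · have h0 : hfin.toFinset = ∅ := by
      rw [Finset.eq_empty_iff_forall_notMem]
      intro m hm
      rw [Set.Finite.mem_toFinset] at hm
      obtain ⟨w, l', h1, -⟩ := hsz m hm
      have h2 := len_sz (pre P m ++ (!(P m)) :: w)
      rw [List.length_append, pre_length, List.length_cons] at h2
      omega
    rw [h0]
    have hll : 0 ≤ Real.log (Real.log N) := Real.log_nonneg l1
    simp only [Finset.card_empty, Nat.cast_zero]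
    positivity
  have key := h H (pre P H) hfin.toFinset hH2 (by
    intro m hm
    rw [Set.Finite.mem_toFinset] at hm
    have hmH := hlt m hm
    obtain ⟨w, l', h1, h2, h3, h4⟩ := hsz m hm
    refine ⟨!(P m), _, l', ?_, ?_, h1, h2, h3, h4⟩
    · rw [pre_take P hmH.le]
      exact ⟨w, by simp⟩
    · rw [pre_take P hmH.le, Bool.not_not, ← pre_succ]
      exact pre_prefix P hmH)
  refine key.trans ?_
  rw [mul_assoc, ← mul_pow]
  apply mul_le_mul_of_nonneg_left _ hC.le
  have hN16 : Real.exp 1 ≤ Real.log N := by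
    have e1 : (16 : ℝ) ≤ N := by exact_mod_cast hN
    have e2 : Real.log 16 ≤ Real.log N := Real.log_le_log (by norm_num) e1
    have e3 : Real.log 16 = 4 * Real.log 2 := by
      rw [show (16 : ℝ) = 2 ^ 4 by norm_num, Real.log_pow]; norm_num
    have e4 := Real.log_two_gt_d9
    have e5 := Real.exp_one_lt_d9
    linarith
  have hll : 1 ≤ Real.log (Real.log N) := by
    rw [Real.le_log_iff_exp_le (by linarith)]
    exact hN16
  have hHpos : (0 : ℝ) < H := by exact_mod_cast (by omega : 0 < H)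
  apply pow_le_pow_left₀ (by linarith [lm_two (show 1 ≤ H by omega)])
  have e1 : Real.log (2 * H) ≤ Real.log 8 + Real.log (Real.log N) := by
    rw [← Real.log_mul (by norm_num) (by linarith)]
    apply Real.log_le_log (by positivity)
    linarith
  have e2 : Real.log 8 ≤ 3 := by
    rw [show (8 : ℝ) = 2 ^ 3 by norm_num, Real.log_pow]
    have := Real.log_two_lt_d9
    norm_num
    linarith
  unfold lm
  linarith

end

end Pool.Agent.N576.MX2
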