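import Mathlib
import Pool.Agent.N576.MX2.C5
import Pool.Agent.N576.MX2.Z1
import Pool.Agent.N854.MX2_TWOLOG
import Pool.Agent.N706.MX2_PAIR
import Pool.Agent.N919.MX2_SINGLE
import Pool.Agent.N531.MX2_LARGE
import Pool.Agent.N592.MX2_AP
import Pool.Agent.N615.MX2_EXA
import Pool.Agent.N456.MX2_LINALG
import Pool.Agent.N433.MX2_PAIRX
import Pool.Agent.N937.MX2_TWOPOS
import Pool.Agent.N42.MX2_SAMEW
import Pool.Agent.N296.MX2_PFTOTAL
import Pool.Agent.N128.MX2_COMBP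
import Pool.Agent.N373.MX2_CLSX
import Pool.Agent.N832.MX2_FINAL
import Pool.Agent.N767.MX_RUNX

set_option autoImplicit false

/-!
# Assembly of the project MX2
-/

namespace Pool.Agent.N576.MX2

theorem twopos : TWOPOS := Pool.Agent.N937.MX2.twopos_of Pool.Agent.N706.MX2P.pair Pool.Agent.N919.MX2S.t_SINGLE
  Pool.Agent.N531.MX2.large Pool.Agent.N531.MX2.eqreg Pool.Agent.N592.MX2.artanh_ Pool.Agent.N592.MX2.paral_
  Pool.Agent.N615.MX2.exa1 Pool.Agent.N615.MX2.exa2 Pool.Agent.N854.MX2.twolog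

theorem comb0_of' (h : POSX) : COMB0 := comb0_of h Pool.Agent.N456.MX2.linalg Pool.Agent.N456.MX2.group
  (Pool.Agent.N433.MX2P.pairx_of Pool.Agent.N706.MX2P.pair) Pool.Agent.N706.MX2P.unitsep twopos
  Pool.Agent.N42.MX2.samew

theorem path0_of' (h : POSX) : PATH0 := Pool.Agent.N832.MX2F.path0_of Pool.Agent.N296.MX2.pftotal
  (Pool.Agent.N128.MX2.combp_of (comb0_of' h) Pool.Agent.N767.MX.runx)

theorem finalx_of' (h : POSX) : FINALX := Pool.Agent.N832.MX2F.finalx_of (path0_of' h) Pool.Agent.N373.MX2.main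

end Pool.Agent.N576.MX2
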