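import Mathlib
import Pool.Agent.N576.MX2.Z0
import Pool.Agent.N432.MX2_POSX

set_option autoImplicit false

/-!
# The main theorems of the project MX2
-/

namespace Pool.Agent.N576.MX2

theorem finalx : FINALX := finalx_of' Pool.Agent.N432.MX2P.posx

theorem path0 : PATH0 := path0_of' Pool.Agent.N432.MX2P.posx

end Pool.Agent.N576.MX2
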