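import Pool.Agent.H609R3.NM.Fin
import Pool.Agent.H609R3.NM.Ana

set_option autoImplicit false

/-!
# Zagier's question and the statement for triples, all exponents (generalisation of the file of helper738)
-/

namespace Pool.Agent.N576.MX2.EQ

open Filter

/-- finitely many values are absorbed in the constant -/
theorem absorb (f g : ℕ → ℝ) (a : ℕ) (hg : ∀ n, a ≤ n → 0 < g n)
    (h : ∃ K : ℝ, ∀ᶠ n in atTop, |f n| ≤ K * g n) : ∃ K : ℝ, ∀ n, a ≤ n → |f n| ≤ K * g n := by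
  obtain ⟨K, hK⟩ := h
  obtain ⟨n₀, hn₀⟩ := eventually_atTop.1 hK
  have hS : 0 ≤ ∑ m ∈ Finset.range n₀, |f m| / |g m| := Finset.sum_nonneg fun m _ => by positivity
  refine ⟨max K 0 + ∑ m ∈ Finset.range n₀, |f m| / |g m|, fun n hn => ?_⟩
  have hgn := hg n hn
  rcases le_or_gt n₀ n with h1 | h1
  · refine (hn₀ n h1).trans (mul_le_mul_of_nonneg_right ?_ hgn.le)
    linarith [le_max_left K 0]
  · have h2 : |f n| / |g n| ≤ ∑ m ∈ Finset.range n₀, |f m| / |g m| :=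
      Finset.single_le_sum (f := fun m => |f m| / |g m|) (fun m _ => by positivity)
        (Finset.mem_range.2 h1)
    calc |f n| = |f n| / |g n| * g n := by
          rw [abs_of_pos hgn]
          field_simp
      _ ≤ _ := mul_le_mul_of_nonneg_right (by linarith [le_max_right K 0]) hgn.le

/-- what is used of the two counting functions and the sequence -/
structure Sys (tri mkN mk : ℕ → ℕ) : Prop where
  pos : ∀ n, 1 ≤ mk n
  inv : ∀ n, 1 ≤ n → mkN (mk n) = n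
  le : ∀ N, 1 ≤ N → mk (mkN N) ≤ N
  mono : Monotone mkN
  tri : ∀ N, mkN N ≤ tri N
  mt : Tendsto mk atTop atTop
  nt : Tendsto mkN atTop atTop

variable {tri mkN mk : ℕ → ℕ} {c θ : ℝ}

theorem logt (S : Sys tri mkN mk) : Tendsto (fun n => Real.log (mk n)) atTop atTop :=
  Real.tendsto_log_atTop.comp (tendsto_natCast_atTop_atTop.comp S.mt)

theorem sqt (hc : 0 < c) : Tendsto (fun n : ℕ => Real.sqrt (n / c)) atTop atTop := by
  apply Real.tendsto_sqrt_atTop.comp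
  exact tendsto_natCast_atTop_atTop.atTop_div_const hc

theorem log_le_L (S : Sys tri mkN mk) (n : ℕ) : Real.log (mk n) ≤ Real.log (3 * mk n) := by
  have h' : (1 : ℝ) ≤ mk n := by exact_mod_cast S.pos n
  apply Real.log_le_log (by linarith)
  linarith

theorem csq (hc : 0 < c) (n : ℕ) : c * Real.sqrt (n / c) ^ 2 = n := by
  rw [Real.sq_sqrt (by positivity)]
  field_simp

theorem ratio (S : Sys tri mkN mk) (hc : 0 < c) (n : ℕ) :
    (mk n : ℝ) / Real.exp (Real.sqrt n / Real.sqrt c) =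
      1 / 3 * Real.exp (Real.log (3 * mk n) - Real.sqrt (n / c)) := by
  have h : (0 : ℝ) < mk n := by exact_mod_cast S.pos n
  rw [Real.exp_sub, Real.exp_log (by positivity), Real.sqrt_div' _ hc.le]
  field_simp

/-- from the triples to the logarithm of the Markoff numbers -/
theorem key1 (S : Sys tri mkN mk) (hc : 0 < c) (hθ : 0 ≤ θ)
    (hex : ∀ eps : ℝ, 0 < eps → ∃ K : ℝ, ∀ N : ℕ, 3 ≤ N →
      (tri N : ℝ) - mkN N ≤ K * (Real.log N) ^ eps)
    (hT : ∀ eps : ℝ, 0 < eps → ∃ K : ℝ, ∀ N : ℕ, 3 ≤ N →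
      |(tri N : ℝ) - c * (Real.log (3 * N)) ^ 2| ≤ K * (Real.log N) ^ (θ + eps))
    (δ : ℝ) (hδ : 0 < δ) (hδ1 : δ ≤ (1 - θ) / 2) :
    ∃ K : ℝ, 0 ≤ K ∧ ∀ᶠ n : ℕ in atTop,
      |Real.log (3 * mk n) - Real.sqrt (n / c)| ≤ K * (n : ℝ) ^ (-(1 - θ) / 2 + δ / 2) := by
  obtain ⟨K1, hK1⟩ := hT δ hδ
  obtain ⟨K2, hK2⟩ := hex δ hδ
  set K3 : ℝ := (|K1| + |K2|) / c with hK3
  have hK30 : 0 ≤ K3 := by positivity
  have hc' : 0 < Real.sqrt c := Real.sqrt_pos.2 hc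
  refine ⟨K3 * (1 / (2 * Real.sqrt c)) ^ (-(1 - θ) + δ), by positivity, ?_⟩
  filter_upwards [S.mt.eventually_ge_atTop 3, (logt S).eventually_ge_atTop 1,
    eventually_ge_atTop 1, (sqt hc).eventually_ge_atTop (2 * K3 + 1)] with n b1 b2 b3 b4
  set Ln := Real.log (3 * mk n) with hLn
  set s := Real.sqrt (n / c) with hs
  have hℓ := log_le_L S n
  rw [← hLn] at hℓ
  have hL1 : 1 ≤ Ln := b2.trans hℓ
  have hL0 : 0 < Ln := by linarith
  have hs0 : 0 < s := by linarith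
  have hcs : c * s ^ 2 = n := csq hc n
  have a1 := hK1 (mk n) b1
  have a2 := hK2 (mk n) b1
  have a3 : (mkN (mk n) : ℝ) ≤ tri (mk n) := by exact_mod_cast S.tri (mk n)
  rw [S.inv n b3] at a2 a3
  rw [← hLn] at a1
  have p0 : 0 ≤ Real.log (mk n) := by linarith
  have p1 : K1 * Real.log (mk n) ^ (θ + δ) ≤ |K1| * Ln ^ (θ + δ) :=
    mul_le_mul (le_abs_self _) (Real.rpow_le_rpow p0 hℓ (by linarith))
      (Real.rpow_nonneg p0 _) (abs_nonneg _)
  have p2 : K2 * Real.log (mk n) ^ δ ≤ |K2| * Ln ^ (θ + δ) := by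
    refine mul_le_mul (le_abs_self _) ?_ (Real.rpow_nonneg p0 _) (abs_nonneg _)
    exact (Real.rpow_le_rpow p0 hℓ hδ.le).trans
      (Real.rpow_le_rpow_of_exponent_le hL1 (by linarith))
  have a4 : |c * Ln ^ 2 - n| ≤ (|K1| + |K2|) * Ln ^ (θ + δ) := by
    have h1 := abs_le.1 (a1.trans p1)
    rw [abs_le]
    constructor
    · nlinarith [h1.1, h1.2]
    · nlinarith [h1.1, h1.2]
  have e1 : Ln ^ (θ + δ) = Ln ^ (-(1 - θ) + δ) * Ln := by
    rw [show θ + δ = (-(1 - θ) + δ) + 1 by ring, Real.rpow_add hL0, Real.rpow_one]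
  have a5 : |Ln - s| * Ln ≤ (K3 * Ln ^ (-(1 - θ) + δ)) * Ln := by
    have h1 : c * (|Ln - s| * (Ln + s)) = |c * Ln ^ 2 - n| := by
      rw [← hcs]
      have h2 : c * Ln ^ 2 - c * s ^ 2 = c * ((Ln - s) * (Ln + s)) := by ring
      rw [h2, abs_mul, abs_mul, abs_of_pos hc, abs_of_nonneg (by linarith : 0 ≤ Ln + s)]
    have h2 : c * (|Ln - s| * Ln) ≤ c * ((K3 * Ln ^ (-(1 - θ) + δ)) * Ln) := by
      calc c * (|Ln - s| * Ln) ≤ c * (|Ln - s| * (Ln + s)) := by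
            apply mul_le_mul_of_nonneg_left _ hc.le
            exact mul_le_mul_of_nonneg_left (by linarith) (abs_nonneg _)
        _ = |c * Ln ^ 2 - n| := h1
        _ ≤ (|K1| + |K2|) * Ln ^ (θ + δ) := a4
        _ = _ := by
            rw [e1, hK3]
            field_simp
    exact le_of_mul_le_mul_left h2 hc
  have a6 : |Ln - s| ≤ K3 * Ln ^ (-(1 - θ) + δ) := le_of_mul_le_mul_right a5 hL0
  have a7 : Ln ^ (-(1 - θ) + δ) ≤ 1 := Real.rpow_le_one_of_one_le_of_nonpos hL1 (by linarith)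
  have a8 : |Ln - s| ≤ K3 := a6.trans (by nlinarith)
  have a9 : s / 2 ≤ Ln := by
    have := (abs_le.1 a8).1
    linarith
  have a10 : Ln ^ (-(1 - θ) + δ) ≤ (s / 2) ^ (-(1 - θ) + δ) :=
    Real.rpow_le_rpow_of_nonpos (by linarith) a9 (by linarith)
  have e2 : s / 2 = 1 / (2 * Real.sqrt c) * (n : ℝ) ^ ((1 : ℝ) / 2) := by
    rw [hs, Real.sqrt_div' _ hc.le, Real.sqrt_eq_rpow (n : ℝ)]
    field_simp
  have e3 : (s / 2) ^ (-(1 - θ) + δ) =
      (1 / (2 * Real.sqrt c)) ^ (-(1 - θ) + δ) * (n : ℝ) ^ (-(1 - θ) / 2 + δ / 2) := by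
    rw [e2, Real.mul_rpow (by positivity) (by positivity), ← Real.rpow_mul (by positivity)]
    congr 2
    ring
  calc |Ln - s| ≤ K3 * Ln ^ (-(1 - θ) + δ) := a6
    _ ≤ K3 * (s / 2) ^ (-(1 - θ) + δ) := mul_le_mul_of_nonneg_left a10 hK30
    _ = _ := by rw [e3]; ring

theorem small (K δ : ℝ) (hδ : δ < (1 - θ) / 2) (η : ℝ) (hη : 0 < η) :
    ∀ᶠ n : ℕ in atTop, K * (n : ℝ) ^ (-(1 - θ) / 2 + δ) ≤ η := by
  have h1 : Tendsto (fun x : ℝ => x ^ (-((1 - θ) / 2 - δ))) atTop (nhds 0) :=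
    tendsto_rpow_neg_atTop (by linarith)
  have h2 : Tendsto (fun n : ℕ => K * (n : ℝ) ^ (-((1 - θ) / 2 - δ))) atTop (nhds (K * 0)) :=
    (h1.comp tendsto_natCast_atTop_atTop).const_mul K
  rw [mul_zero] at h2
  have h3 := h2.eventually_le_const hη
  filter_upwards [h3] with n hn
  rw [show -(1 - θ) / 2 + δ = -((1 - θ) / 2 - δ) by ring]
  exact hn

/-- from the triples to the numbers -/
theorem dirA (S : Sys tri mkN mk) (hc : 0 < c) (hθ : 0 ≤ θ) (hθ1 : θ < 1)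
    (hex : ∀ eps : ℝ, 0 < eps → ∃ K : ℝ, ∀ N : ℕ, 3 ≤ N →
      (tri N : ℝ) - mkN N ≤ K * (Real.log N) ^ eps)
    (hT : ∀ eps : ℝ, 0 < eps → ∃ K : ℝ, ∀ N : ℕ, 3 ≤ N →
      |(tri N : ℝ) - c * (Real.log (3 * N)) ^ 2| ≤ K * (Real.log N) ^ (θ + eps))
    (eps : ℝ) (heps : 0 < eps) : ∃ K : ℝ, ∀ n : ℕ, 1 ≤ n →
      |(mk n : ℝ) / Real.exp (Real.sqrt n / Real.sqrt c) - 1 / 3| ≤
        K * (n : ℝ) ^ (-(1 - θ) / 2 + eps) := by
  refine absorb (fun n => (mk n : ℝ) / Real.exp (Real.sqrt n / Real.sqrt c) - 1 / 3)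
    (fun n => (n : ℝ) ^ (-(1 - θ) / 2 + eps)) 1 (fun n hn => ?_) ?_
  · have : (0 : ℝ) < n := by exact_mod_cast hn
    positivity
  · set δ := min eps ((1 - θ) / 2) with hδ
    have hδ0 : 0 < δ := lt_min heps (by linarith)
    have hδ1 : δ ≤ (1 - θ) / 2 := min_le_right _ _
    have hδ2 : δ ≤ eps := min_le_left _ _
    obtain ⟨K, hK0, hK⟩ := key1 S hc hθ hex hT δ hδ0 hδ1
    refine ⟨K, ?_⟩
    filter_upwards [hK, small (θ := θ) K (δ / 2) (by linarith) 1 one_pos, eventually_ge_atTop 1]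
      with n h1 h2 h3
    rw [ratio S hc]
    have hn : (1 : ℝ) ≤ n := by exact_mod_cast h3
    have h4 := Real.abs_exp_sub_one_le (h1.trans h2)
    have e1 : 1 / 3 * Real.exp (Real.log (3 * mk n) - Real.sqrt (n / c)) - 1 / 3
        = 1 / 3 * (Real.exp (Real.log (3 * mk n) - Real.sqrt (n / c)) - 1) := by ring
    rw [e1, abs_mul, abs_of_pos (by norm_num : (0 : ℝ) < 1 / 3)]
    have h5 : (n : ℝ) ^ (-(1 - θ) / 2 + δ / 2) ≤ (n : ℝ) ^ (-(1 - θ) / 2 + eps) :=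
      Real.rpow_le_rpow_of_exponent_le hn (by linarith)
    have h6 := mul_le_mul_of_nonneg_left h5 hK0
    have h7 := abs_nonneg (Real.log (3 * mk n) - Real.sqrt (n / c))
    linarith

theorem abs_le_two_exp {x : ℝ} (h : |Real.exp x - 1| ≤ 1 / 2) : |x| ≤ 2 * |Real.exp x - 1| := by
  have h1 := Real.add_one_le_exp x
  have h2 := Real.add_one_le_exp (-x)
  have h3 := abs_le.1 h
  have h4 : 1 / 2 ≤ Real.exp x := by linarith
  have h5 := le_abs_self (Real.exp x - 1)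
  have h6 := neg_abs_le (Real.exp x - 1)
  have h7 := abs_nonneg (Real.exp x - 1)
  rw [Real.exp_neg] at h2
  rw [abs_le]
  constructor
  · -- `-x ≤ e^{-x} - 1 = (1 - e^x) / e^x`
    have h8 : (Real.exp x)⁻¹ - 1 = (1 - Real.exp x) / Real.exp x := by
      have := (Real.exp_pos x).ne'
      field_simp
    have h9 : (1 - Real.exp x) / Real.exp x ≤ 2 * |Real.exp x - 1| := by
      rw [div_le_iff₀ (Real.exp_pos x)]
      nlinarith
    linarith
  · linarith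

/-- from the numbers to the logarithms -/
theorem key2 (S : Sys tri mkN mk) (hc : 0 < c) (hθ : 0 ≤ θ)
    (hZ : ∀ eps : ℝ, 0 < eps → ∃ K : ℝ, ∀ n : ℕ, 1 ≤ n →
      |(mk n : ℝ) / Real.exp (Real.sqrt n / Real.sqrt c) - 1 / 3| ≤
        K * (n : ℝ) ^ (-(1 - θ) / 2 + eps))
    (δ : ℝ) (hδ : 0 < δ) (hδ1 : δ < (1 - θ) / 2) :
    ∃ K : ℝ, 0 ≤ K ∧ ∀ᶠ n : ℕ in atTop,
      |c * Real.log (3 * mk n) ^ 2 - n| ≤ K * (n : ℝ) ^ (θ / 2 + δ) := by
  obtain ⟨K0, hK0⟩ := hZ δ hδ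
  set K := |K0| with hKdef
  have hK : 0 ≤ K := abs_nonneg _
  refine ⟨c * (6 * K) * (2 * (1 / Real.sqrt c) + 1), by positivity, ?_⟩
  filter_upwards [eventually_ge_atTop 1, small (θ := θ) (3 * K) δ hδ1 (1 / 2) (by norm_num),
    (logt S).eventually_ge_atTop 1] with n b1 b2 b3
  have hn : (1 : ℝ) ≤ n := by exact_mod_cast b1
  have hn0 : (0 : ℝ) < n := by linarith
  set Ln := Real.log (3 * mk n) with hLn
  set s := Real.sqrt (n / c) with hs
  have hL1 : 1 ≤ Ln := b3.trans (log_le_L S n)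
  have hs0 : 0 ≤ s := Real.sqrt_nonneg _
  have hcs : c * s ^ 2 = n := csq hc n
  have hpw : 0 < (n : ℝ) ^ (-(1 - θ) / 2 + δ) := by positivity
  have a1 := hK0 n b1
  rw [ratio S hc, ← hLn, ← hs] at a1
  have e1 : 1 / 3 * Real.exp (Ln - s) - 1 / 3 = 1 / 3 * (Real.exp (Ln - s) - 1) := by ring
  rw [e1, abs_mul, abs_of_pos (by norm_num : (0 : ℝ) < 1 / 3)] at a1
  have a2 : K0 * (n : ℝ) ^ (-(1 - θ) / 2 + δ) ≤ K * (n : ℝ) ^ (-(1 - θ) / 2 + δ) :=
    mul_le_mul_of_nonneg_right (le_abs_self _) hpw.le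
  have a3 : |Real.exp (Ln - s) - 1| ≤ 3 * K * (n : ℝ) ^ (-(1 - θ) / 2 + δ) := by linarith
  have a4 := abs_le_two_exp (a3.trans b2)
  have a5 : |Ln - s| ≤ 6 * K * (n : ℝ) ^ (-(1 - θ) / 2 + δ) := by linarith
  have a6 : |Ln - s| ≤ 1 := by linarith
  have e2 : s = 1 / Real.sqrt c * (n : ℝ) ^ ((1 : ℝ) / 2) := by
    rw [hs, Real.sqrt_div' _ hc.le, Real.sqrt_eq_rpow (n : ℝ)]
    ring
  have e3 : (1 : ℝ) ≤ (n : ℝ) ^ ((1 : ℝ) / 2) := Real.one_le_rpow hn (by norm_num)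
  have a7 : Ln + s ≤ (2 * (1 / Real.sqrt c) + 1) * (n : ℝ) ^ ((1 : ℝ) / 2) := by
    have h1 := (abs_le.1 a6).2
    have h2 : Ln + s ≤ 2 * s + 1 := by linarith
    refine h2.trans ?_
    rw [e2]
    nlinarith
  have h1 : |c * Ln ^ 2 - n| = c * (|Ln - s| * (Ln + s)) := by
    rw [← hcs]
    have h2 : c * Ln ^ 2 - c * s ^ 2 = c * ((Ln - s) * (Ln + s)) := by ring
    rw [h2, abs_mul, abs_mul, abs_of_pos hc, abs_of_nonneg (by linarith : 0 ≤ Ln + s)]
  rw [h1]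
  have e4 : (n : ℝ) ^ (θ / 2 + δ) = (n : ℝ) ^ (-(1 - θ) / 2 + δ) * (n : ℝ) ^ ((1 : ℝ) / 2) := by
    rw [← Real.rpow_add hn0]
    congr 1
    ring
  rw [e4]
  calc c * (|Ln - s| * (Ln + s)) ≤ c * ((6 * K * (n : ℝ) ^ (-(1 - θ) / 2 + δ)) *
        ((2 * (1 / Real.sqrt c) + 1) * (n : ℝ) ^ ((1 : ℝ) / 2))) := by
        apply mul_le_mul_of_nonneg_left _ hc.le
        exact mul_le_mul a5 a7 (by linarith) (by positivity)
    _ = _ := by ring

/-- from the numbers to the triples -/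
theorem dirB (S : Sys tri mkN mk) (hc : 0 < c) (hθ : 0 ≤ θ) (hθ1 : θ < 1)
    (hlim : Tendsto (fun N : ℕ => (tri N : ℝ) / Real.log N ^ 2) atTop (nhds c))
    (hex : ∀ eps : ℝ, 0 < eps → ∃ K : ℝ, ∀ N : ℕ, 3 ≤ N →
      (tri N : ℝ) - mkN N ≤ K * (Real.log N) ^ eps)
    (hZ : ∀ eps : ℝ, 0 < eps → ∃ K : ℝ, ∀ n : ℕ, 1 ≤ n →
      |(mk n : ℝ) / Real.exp (Real.sqrt n / Real.sqrt c) - 1 / 3| ≤
        K * (n : ℝ) ^ (-(1 - θ) / 2 + eps))
    (eps : ℝ) (heps : 0 < eps) : ∃ K : ℝ, ∀ N : ℕ, 3 ≤ N →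
      |(tri N : ℝ) - c * (Real.log (3 * N)) ^ 2| ≤ K * (Real.log N) ^ (θ + eps) := by
  refine absorb (fun N => (tri N : ℝ) - c * (Real.log (3 * N)) ^ 2)
    (fun N => (Real.log N) ^ (θ + eps)) 3 (fun N hN => ?_) ?_
  · have h1 : (1 : ℝ) < N := by exact_mod_cast (by omega : 1 < N)
    have := Real.log_pos h1
    positivity
  · set δ := min (eps / 2) ((1 - θ) / 4) with hδ
    have hδ0 : 0 < δ := lt_min (by linarith) (by linarith)
    have hδ1 : δ < (1 - θ) / 2 := lt_of_le_of_lt (min_le_right _ _) (by linarith)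
    have hδ2 : δ ≤ eps / 2 := min_le_left _ _
    obtain ⟨K, hK0, hK⟩ := key2 S hc hθ hZ δ hδ0 hδ1
    obtain ⟨K5, hK5⟩ := hex eps heps
    have hK' : ∀ᶠ n : ℕ in atTop,
        |c * Real.log (3 * mk (n + 1)) ^ 2 - (n + 1 : ℕ)| ≤ K * ((n + 1 : ℕ) : ℝ) ^ (θ / 2 + δ) :=
      (tendsto_add_atTop_nat 1).eventually hK
    have hlog : Tendsto (fun N : ℕ => Real.log (N : ℝ)) atTop atTop :=
      Real.tendsto_log_atTop.comp tendsto_natCast_atTop_atTop
    refine ⟨|K5| + (1 + K * 2) * (c + 1) ^ (θ / 2 + δ), ?_⟩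
    filter_upwards [S.nt.eventually hK, S.nt.eventually hK', S.nt.eventually_ge_atTop 1,
      eventually_ge_atTop 3, hlog.eventually_ge_atTop 1,
      hlim.eventually_le_const (lt_add_one c)] with N b1 b2 b3 b4 b5 b6
    set n := mkN N with hn
    have hn1 : (1 : ℝ) ≤ n := by exact_mod_cast b3
    have hn0 : (0 : ℝ) < n := by linarith
    have hN0 : (0 : ℝ) < N := by exact_mod_cast (by omega : 0 < N)
    -- the position of `N`
    have c1 : mk n ≤ N := S.le N (by omega)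
    have c2 : N ≤ mk (n + 1) := by
      by_contra h
      push Not at h
      have h1 := S.mono h.le
      rw [S.inv (n + 1) (by omega), ← hn] at h1
      omega
    have d0 : (0 : ℝ) < mk n := by exact_mod_cast S.pos n
    have d1 : Real.log (3 * mk n) ≤ Real.log (3 * N) := by
      apply Real.log_le_log (by positivity)
      have : (mk n : ℝ) ≤ N := by exact_mod_cast c1
      linarith
    have d2 : Real.log (3 * N) ≤ Real.log (3 * mk (n + 1)) := by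
      apply Real.log_le_log (by positivity)
      have : (N : ℝ) ≤ mk (n + 1) := by exact_mod_cast c2
      linarith
    have d3 : 0 ≤ Real.log (3 * mk n) := by
      apply Real.log_nonneg
      have : (1 : ℝ) ≤ mk n := by exact_mod_cast S.pos n
      linarith
    have d4 : c * Real.log (3 * mk n) ^ 2 ≤ c * Real.log (3 * N) ^ 2 :=
      mul_le_mul_of_nonneg_left (pow_le_pow_left₀ d3 d1 2) hc.le
    have d5 : c * Real.log (3 * N) ^ 2 ≤ c * Real.log (3 * mk (n + 1)) ^ 2 :=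
      mul_le_mul_of_nonneg_left (pow_le_pow_left₀ (d3.trans d1) d2 2) hc.le
    have f1 := abs_le.1 b1
    have f2 := abs_le.1 b2
    have hα : 0 < θ / 2 + δ := by linarith
    have g0 : (1 : ℝ) ≤ (n : ℝ) ^ (θ / 2 + δ) := Real.one_le_rpow hn1 hα.le
    have g1 : ((n + 1 : ℕ) : ℝ) ^ (θ / 2 + δ) ≤ 2 * (n : ℝ) ^ (θ / 2 + δ) := by
      have h1 : ((n + 1 : ℕ) : ℝ) ≤ 2 * n := by
        push_cast
        linarith
      refine (Real.rpow_le_rpow (by positivity) h1 hα.le).trans ?_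
      rw [Real.mul_rpow (by norm_num) hn0.le]
      refine mul_le_mul_of_nonneg_right ?_ (by positivity)
      calc (2 : ℝ) ^ (θ / 2 + δ) ≤ (2 : ℝ) ^ (1 : ℝ) :=
            Real.rpow_le_rpow_of_exponent_le (by norm_num) (by linarith)
        _ = 2 := Real.rpow_one 2
    have g2 : K * ((n + 1 : ℕ) : ℝ) ^ (θ / 2 + δ) ≤ K * 2 * (n : ℝ) ^ (θ / 2 + δ) := by
      have := mul_le_mul_of_nonneg_left g1 hK0
      linarith
    have g3 : |(n : ℝ) - c * Real.log (3 * N) ^ 2| ≤ (1 + K * 2) * (n : ℝ) ^ (θ / 2 + δ) := by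
      have h3 := f2.2
      push_cast at h3
      push_cast at g2
      have h4 : K * (n : ℝ) ^ (θ / 2 + δ) ≤ K * 2 * (n : ℝ) ^ (θ / 2 + δ) := by
        have := mul_nonneg hK0 (by linarith : (0 : ℝ) ≤ (n : ℝ) ^ (θ / 2 + δ))
        linarith
      rw [abs_le]
      constructor
      · linarith
      · linarith [f1.1]
    -- the size of `n`
    have k1 : (n : ℝ) ≤ (c + 1) * Real.log N ^ 2 := by
      have h1 : (n : ℝ) ≤ tri N := by exact_mod_cast S.tri N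
      have h2 : (0 : ℝ) < Real.log N ^ 2 := by positivity
      have h3 : (tri N : ℝ) ≤ (c + 1) * Real.log N ^ 2 := by
        rw [div_le_iff₀ h2] at b6
        exact b6
      linarith
    have k2 : (n : ℝ) ^ (θ / 2 + δ) ≤ (c + 1) ^ (θ / 2 + δ) * Real.log N ^ (θ + eps) := by
      refine (Real.rpow_le_rpow hn0.le k1 hα.le).trans ?_
      rw [Real.mul_rpow (by linarith) (by positivity)]
      refine mul_le_mul_of_nonneg_left ?_ (by positivity)
      rw [← Real.rpow_natCast, ← Real.rpow_mul (by linarith)]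
      apply Real.rpow_le_rpow_of_exponent_le b5
      push_cast
      linarith
    have k3 : |(tri N : ℝ) - n| ≤ |K5| * Real.log N ^ (θ + eps) := by
      have h1 : (n : ℝ) ≤ tri N := by exact_mod_cast S.tri N
      rw [abs_of_nonneg (by linarith)]
      refine (hK5 N b4).trans ?_
      refine mul_le_mul (le_abs_self _) ?_ (by positivity) (abs_nonneg _)
      exact Real.rpow_le_rpow_of_exponent_le b5 (by linarith)
    calc |(tri N : ℝ) - c * Real.log (3 * N) ^ 2|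
        = |((tri N : ℝ) - n) + (n - c * Real.log (3 * N) ^ 2)| := by
          congr 1
          ring
      _ ≤ |(tri N : ℝ) - n| + |n - c * Real.log (3 * N) ^ 2| := abs_add_le _ _
      _ ≤ |K5| * Real.log N ^ (θ + eps) + (1 + K * 2) * (n : ℝ) ^ (θ / 2 + δ) :=
          add_le_add k3 g3
      _ ≤ |K5| * Real.log N ^ (θ + eps) + (1 + K * 2) *
            ((c + 1) ^ (θ / 2 + δ) * Real.log N ^ (θ + eps)) := by
          have := mul_le_mul_of_nonneg_left k2 (by linarith : 0 ≤ 1 + K * 2)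
          linarith
      _ = _ := by ring

end Pool.Agent.N576.MX2.EQ

namespace Pool.Agent.N576.MX2

open Filter Pool.Agent.H609R3.NM Pool.Agent.H499R2

theorem sys : EQ.Sys tri mkN mk where
  pos := mk_pos
  inv := fun _ hn => mkN_mk hn
  le := fun _ hN => mk_mkN_le hN
  mono := by
    classical
    intro a b hab
    rw [mkN_count, mkN_count]
    exact Nat.count_monotone P (by omega)
  tri := fun N => mkN_le_tri N
  mt := mk_tendsto
  nt := mkN_tendsto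

theorem eqv (c : ℝ) (hc : 0 < c)
    (hlim : Tendsto (fun N : ℕ => (tri N : ℝ) / Real.log N ^ 2) atTop (nhds c))
    (hex : ∀ eps : ℝ, 0 < eps → ∃ K : ℝ, ∀ N : ℕ, 3 ≤ N →
      (tri N : ℝ) - mkN N ≤ K * (Real.log N) ^ eps) (θ : ℝ) (hθ : 0 ≤ θ) (hθ1 : θ < 1) :
    (∀ eps : ℝ, 0 < eps → ∃ K : ℝ, ∀ n : ℕ, 1 ≤ n →
      |(mk n : ℝ) / Real.exp (Real.sqrt n / Real.sqrt c) - 1 / 3| ≤
        K * (n : ℝ) ^ (-(1 - θ) / 2 + eps)) ↔
    (∀ eps : ℝ, 0 < eps → ∃ K : ℝ, ∀ N : ℕ, 3 ≤ N →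
      |(tri N : ℝ) - c * (Real.log (3 * N)) ^ 2| ≤ K * (Real.log N) ^ (θ + eps)) :=
  ⟨fun hZ => EQ.dirB sys hc hθ hθ1 hlim hex hZ, fun hT => EQ.dirA sys hc hθ hθ1 hex hT⟩

end Pool.Agent.N576.MX2
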