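import Mathlib
import Pool.Agent.N576.MX.K9
import Pool.Agent.N576.MX2.Z2
import Pool.Agent.N576.MX2.Z4

set_option autoImplicit false

/-!
# The distinct Markoff numbers and the triples
-/

namespace Pool.Agent.N576.MX2

open Filter Pool.Agent.H499R2 Pool.Agent.N576.MK Pool.Agent.H609R3.NM

/-- the excess of the number of triples over the number of numbers -/
theorem excess_eps (ε : ℝ) (hε : 0 < ε) : ∃ K : ℝ, ∀ N : ℕ, 3 ≤ N → (tri N : ℝ) - mkN N ≤ K * (Real.log N) ^ ε := by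
  obtain ⟨C, hC, h⟩ := bad_eps finalx ε hε
  refine ⟨C, fun N hN => ?_⟩
  have h1 := h N hN
  have h2 : (tri N : ℝ) ≤ mkN N + (ST N N).ncard := by exact_mod_cast Pool.Agent.N576.MX.excess_bad N
  linarith

/-- **The distinct Markoff numbers.** -/
theorem zagier_main : ∃ c : ℝ, 0 < c ∧ Tendsto (fun N : ℕ => (tri N : ℝ) / Real.log N ^ 2) atTop (nhds c) ∧
    Tendsto (fun n : ℕ => (mk n : ℝ) / Real.exp (Real.sqrt n / Real.sqrt c)) atTop (nhds (1 / 3)) ∧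
    ∀ θ : ℝ, 0 ≤ θ → θ < 1 →
    ((∀ ε : ℝ, 0 < ε → ∃ K : ℝ, ∀ n : ℕ, 1 ≤ n →
      |(mk n : ℝ) / Real.exp (Real.sqrt n / Real.sqrt c) - 1 / 3| ≤ K * (n : ℝ) ^ (-(1 - θ) / 2 + ε)) ↔
    (∀ ε : ℝ, 0 < ε → ∃ K : ℝ, ∀ N : ℕ, 3 ≤ N →
      |(tri N : ℝ) - c * (Real.log (3 * N)) ^ 2| ≤ K * (Real.log N) ^ (θ + ε))) := by
  obtain ⟨c, hc, h1, h2⟩ := Pool.Agent.N576.MX.mk_asymp
  exact ⟨c, hc, h1, h2, eqv c hc h1 excess_eps⟩

end Pool.Agent.N576.MX2
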